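import Pool.Agent.HKone.KBound
import Pool.Agent.K1.EIneq
import Pool.Agent.HHalf.CNodes

set_option autoImplicit false

namespace Pool.Agent.HKone

open MeasureTheory Set Filter Topology Pool.Agent.HHalf Pool.Agent.HStar Function ComplexConjugate

/-- The two kernel bounds for a list of conjugate pairs in the middle region. -/
theorem kone {n N : ℕ} {L : Fin N → ℂ} (hL : ∀ a, ‖L a‖ ≤ 1) {x : ℝ} (hx0 : -1 < x) (hx1 : x < 1)
    {a b : Fin N} (ha : (1 + x) / 2 ≤ (L a).re) (hb : (L b).re ≤ (x - 1) / 2)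
    (e : Fin n ≃ Fin N × Bool) {ξ : ℂ} (hξ : ‖ξ‖ < 1) :
    K1.Cs (1 - x) * (2 * (KK (zL L ∘ e) x 1 ξ).re) ≤ 2 * (KK (zL L ∘ e) x 0 ξ).re - 1 ∧
      -(K1.Cs (1 + x) * (2 * (KK (zL L ∘ e) x 1 ξ).re)) ≤ 2 * (KK (zL L ∘ e) x 0 ξ).re - 1 := by
  have hz : ∀ i, ‖(zL L ∘ e) i‖ ≤ 1 := fun i => norm_zL hL (e i)
  have hre : ∀ c, -1 ≤ (L c).re ∧ (L c).re ≤ 1 := fun c =>
    abs_le.1 ((Complex.abs_re_le_norm _).trans (hL c))
  have hab : a ≠ b := by
    rintro rfl
    linarith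
  have hne : ∀ {p q : Fin N × Bool}, p ≠ q → e.symm p ≠ e.symm q := fun h h2 => h (e.symm.injective h2)
  have v : ∀ (c : Fin N) (t : Bool), (zL L ∘ e) (e.symm (c, t)) = zL L (c, t) := by
    intro c t
    simp
  have vF : ∀ c : Fin N, (zL L ∘ e) (e.symm (c, false)) = L c := by
    intro c
    rw [v]
    simp [zL]
  have vT : ∀ c : Fin N, (zL L ∘ e) (e.symm (c, true)) = conj ((zL L ∘ e) (e.symm (c, false))) := by
    intro c
    rw [v, vF]
    simp [zL]
  have n1 : ((b, false) : Fin N × Bool) ≠ (b, true) := by simp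
  have n2 : ((a, false) : Fin N × Bool) ≠ (a, true) := by simp
  have n3 : ∀ s t : Bool, ((b, s) : Fin N × Bool) ≠ (a, t) := by
    intro s t h
    exact hab (congrArg Prod.fst h).symm
  constructor
  · refine kern_A hz hx0 hx1 (hne n1) (hne n2) (hne (n3 _ _)) (hne (n3 _ _)) (hne (n3 _ _))
      (hne (n3 _ _)) (vT b) (vT a) ?_ ?_ ?_ (K1.Cs_pos (by linarith)).le ?_ hξ
    · rw [vF]; linarith
    · rw [vF]; linarith
    · rw [vF, vF]; linarith
    · rw [vF, vF]
      exact K1.E_ineq (by linarith) (by linarith) (by linarith) (by linarith [(hre a).2])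
        (by linarith) (by linarith [(hre b).1])
  · refine kern_B hz hx0 hx1 (hne n1) (hne n2) (hne (n3 _ _)) (hne (n3 _ _)) (hne (n3 _ _))
      (hne (n3 _ _)) (vT b) (vT a) ?_ ?_ ?_ (K1.Cs_pos (by linarith)).le ?_ hξ
    · rw [vF]; linarith
    · rw [vF]; linarith
    · rw [vF, vF]; linarith
    · rw [vF, vF]
      exact K1.E_ineq (by linarith) (by linarith) (by linarith) (by linarith [(hre b).1])
        (by linarith) (by linarith [(hre a).2])

end Pool.Agent.HKone
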