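import Pool.Agent.HKone.TriB

set_option autoImplicit false

namespace Pool.Agent.HKone

open MeasureTheory Set Filter Topology Pool.Agent.HHalf Pool.Agent.HStar Function

/-- The average of `2/(s - v w) - 1` with the weight `2 (1 - v)`. -/
noncomputable def phihat (s w : ℝ) : ℝ := ∫ v in (0:ℝ)..1, 2 * (1 - v) * (2 / (s - v * w) - 1)

/-- The average of `2/(s + v w) - 1` with the weight `2 (1 - v)`. -/
noncomputable def psihat (s w : ℝ) : ℝ := ∫ v in (0:ℝ)..1, 2 * (1 - v) * (2 / (s + v * w) - 1)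

theorem ii_phi {s w : ℝ} (hs : 0 < s) (hws : w ≤ s) :
    IntervalIntegrable (fun v => 2 * (1 - v) * (2 / (s - v * w) - 1)) volume 0 1 := by
  rw [intervalIntegrable_iff_integrableOn_Icc_of_le zero_le_one]
  apply Measure.integrableOn_of_bounded (M := 4 / s + 2)
  · simp
  · apply Measurable.aestronglyMeasurable
    fun_prop
  · rw [ae_restrict_iff' measurableSet_Icc]
    refine Eventually.of_forall fun v hv => ?_
    have h1 : s * (1 - v) ≤ s - v * w := by nlinarith [hv.1, mul_le_mul_of_nonneg_left hws hv.1]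
    have h0 : 0 ≤ 1 - v := by linarith [hv.2]
    have h2 : 2 * (1 - v) * (2 / (s - v * w)) ≤ 4 / s := by
      rcases eq_or_lt_of_le h0 with h3 | h3
      · rw [← h3]
        have : (0:ℝ) ≤ 4 / s := by positivity
        linarith
      · have h4 : 0 < s - v * w := lt_of_lt_of_le (by positivity) h1
        rw [← mul_div_assoc, div_le_div_iff₀ h4 hs]
        nlinarith
    have h5 : 0 ≤ 2 * (1 - v) * (2 / (s - v * w)) := by
      have h4 : 0 ≤ s - v * w := le_trans (by positivity) h1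
      positivity
    rw [Real.norm_eq_abs, abs_le]
    have h6 : 1 - v ≤ 1 := by linarith [hv.1]
    have h7 : (0:ℝ) ≤ 4 / s := by positivity
    constructor <;> nlinarith

theorem ii_psi {s w : ℝ} (hs : 0 < s) (hw : 0 ≤ w) :
    IntervalIntegrable (fun v => 2 * (1 - v) * (2 / (s + v * w) - 1)) volume 0 1 := by
  apply ContinuousOn.intervalIntegrable
  rw [uIcc_of_le zero_le_one]
  refine ContinuousOn.mul (by fun_prop) (ContinuousOn.sub (ContinuousOn.div continuousOn_const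
    (by fun_prop) ?_) continuousOn_const)
  intro v hv
  have := mul_nonneg hv.1 hw
  positivity

theorem cmp {s w1 w2 C κ : ℝ} (hs : 0 < s) (hw1 : w1 ≤ s) (hw2 : 0 ≤ w2) (hC : 0 ≤ C)
    (hκ : 0 ≤ κ) {g h : ℝ → ℝ} (hgc : ContinuousOn g (Icc 0 1)) (hhc : ContinuousOn h (Icc 0 1))
    (hg0 : ∀ v ∈ Icc (0:ℝ) 1, 0 ≤ g v) (hh0 : ∀ v ∈ Icc (0:ℝ) 1, 0 ≤ h v)
    (hg : ∀ v ∈ Ico (0:ℝ) 1, g v ≤ κ * (2 / (s - v * w1) - 1))
    (hh : ∀ v ∈ Icc (0:ℝ) 1, κ * (2 / (s + v * w2) - 1) ≤ h v)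
    (hE : (C - w1) * phihat s w1 ≤ (C + w2) * psihat s w2) :
    (C - w1) * ∫ v in (0:ℝ)..1, (1 - v) * g v ≤ (C + w2) * ∫ v in (0:ℝ)..1, (1 - v) * h v := by
  have ig : 0 ≤ ∫ v in (0:ℝ)..1, (1 - v) * g v :=
    intervalIntegral.integral_nonneg zero_le_one fun v hv =>
      mul_nonneg (by linarith [hv.2]) (hg0 v hv)
  have ih : 0 ≤ ∫ v in (0:ℝ)..1, (1 - v) * h v :=
    intervalIntegral.integral_nonneg zero_le_one fun v hv =>
      mul_nonneg (by linarith [hv.2]) (hh0 v hv)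
  rcases le_total C w1 with hCw | hCw
  · have h1 : (C - w1) * ∫ v in (0:ℝ)..1, (1 - v) * g v ≤ 0 :=
      mul_nonpos_of_nonpos_of_nonneg (by linarith) ig
    have h2 : 0 ≤ (C + w2) * ∫ v in (0:ℝ)..1, (1 - v) * h v := mul_nonneg (by linarith) ih
    linarith
  have cg : IntervalIntegrable (fun v => (1 - v) * g v) volume 0 1 :=
    ContinuousOn.intervalIntegrable (by
      rw [uIcc_of_le zero_le_one]; exact ContinuousOn.mul (by fun_prop) hgc)
  have ch : IntervalIntegrable (fun v => (1 - v) * h v) volume 0 1 :=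
    ContinuousOn.intervalIntegrable (by
      rw [uIcc_of_le zero_le_one]; exact ContinuousOn.mul (by fun_prop) hhc)
  have h1 : ∫ v in (0:ℝ)..1, (1 - v) * g v ≤ κ / 2 * phihat s w1 := by
    unfold phihat
    rw [← intervalIntegral.integral_const_mul]
    refine intervalIntegral.integral_mono_on zero_le_one cg ((ii_phi hs hw1).const_mul _) ?_
    intro v hv
    rcases eq_or_lt_of_le hv.2 with h2 | h2
    · rw [h2]; simp
    · have h3 := mul_le_mul_of_nonneg_left (hg v ⟨hv.1, h2⟩) (by linarith : (0:ℝ) ≤ 1 - v)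
      linarith
  have h2 : κ / 2 * psihat s w2 ≤ ∫ v in (0:ℝ)..1, (1 - v) * h v := by
    unfold psihat
    rw [← intervalIntegral.integral_const_mul]
    refine intervalIntegral.integral_mono_on zero_le_one ((ii_psi hs hw2).const_mul _) ch ?_
    intro v hv
    have h3 := mul_le_mul_of_nonneg_left (hh v hv) (by linarith [hv.2] : (0:ℝ) ≤ 1 - v)
    linarith
  calc (C - w1) * ∫ v in (0:ℝ)..1, (1 - v) * g v ≤ (C - w1) * (κ / 2 * phihat s w1) :=
        mul_le_mul_of_nonneg_left h1 (by linarith)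
    _ = κ / 2 * ((C - w1) * phihat s w1) := by ring
    _ ≤ κ / 2 * ((C + w2) * psihat s w2) := mul_le_mul_of_nonneg_left hE (by positivity)
    _ = (C + w2) * (κ / 2 * psihat s w2) := by ring
    _ ≤ _ := mul_le_mul_of_nonneg_left h2 (by linarith)

section

variable {ξ S0 : ℂ} {T0 x : ℝ}

theorem tri_A (hξ : ‖ξ‖ < 1) {aL aR C : ℝ} (hS : ‖S0‖ ≤ T0) (hx0 : -1 < x) (hx1 : x < 1)
    (hL : -1 ≤ aL) (hLx : aL ≤ x) (hxR : x ≤ aR) (hR : aR ≤ 1) (hLR : aL < aR) (hC : 0 ≤ C)
    (hE : (C - (aR - x)) * phihat (1 - x) (aR - x) ≤ (C + (x - aL)) * psihat (1 - x) (x - aL)) :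
    0 ≤ ∫ w, g3 ξ S0 T0 x aL aR C w ∂(nu.prod (nu.prod nu)) := by
  have ax : |x| ≤ 1 := abs_le.2 ⟨hx0.le, hx1.le⟩
  have aaL : |aL| ≤ 1 := abs_le.2 ⟨hL, by linarith⟩
  have aaR : |aR| ≤ 1 := abs_le.2 ⟨by linarith, hR⟩
  refine tri_pos hξ C hS ax aaL aaR hLR fun s hs => ?_
  set φ : ℝ → ℝ := fun X => hk ξ (zp s T0 S0 X) with hφ
  have hφ0 : ∀ X, |X| ≤ 1 → 0 ≤ φ X := fun X hX => (hk_pos hξ (norm_zp_le hs hS hX)).le
  have hκ : 0 ≤ φ x * ((1 - x) / (1 + x)) :=
    mul_nonneg (hφ0 x ax) (div_nonneg (by linarith) (by linarith))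
  have key := cmp (s := 1 - x) (w1 := aR - x) (w2 := x - aL) (C := C)
    (κ := φ x * ((1 - x) / (1 + x))) (g := fun v => φ (x + v * (aR - x)))
    (h := fun v => φ (x + v * (aL - x))) (by linarith) (by linarith) (by linarith) hC hκ
    (cont_hkzp hξ hs hS ax aaR) (cont_hkzp hξ hs hS ax aaL)
    (fun v hv => hφ0 _ (abs_seg_le ax aaR hv.1 hv.2))
    (fun v hv => hφ0 _ (abs_seg_le ax aaL hv.1 hv.2)) ?_ ?_ hE
  · unfold JJ
    have e1 : ∀ y, (fun v => (1 - v) * φ (x + v * (y - x))) =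
      fun v => (1 - v) * hk ξ (zp s T0 S0 (x + v * (y - x))) := fun y => rfl
    rw [e1, e1] at key
    linarith
  · intro v hv
    have hY := (abs_le.1 (abs_seg_le ax aaR hv.1 hv.2.le)).2
    have hXY : x ≤ x + v * (aR - x) := by
      have := mul_nonneg hv.1 (by linarith : 0 ≤ aR - x)
      linarith
    have h1 := (harnack hs hS hx0.le hXY hY hξ).1
    have h3 : 0 < 1 - x - v * (aR - x) := by nlinarith [hv.2, hv.1]
    have h4 : 0 < 1 + x := by linarith
    show φ (x + v * (aR - x)) ≤ _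
    have e : φ x * ((1 - x) / (1 + x)) * (2 / (1 - x - v * (aR - x)) - 1) =
        φ x * ((1 - x) * (1 + (x + v * (aR - x)))) /
          ((1 - (x + v * (aR - x))) * (1 + x)) := by
      have h5 : 1 - (x + v * (aR - x)) ≠ 0 := by
        have : 1 - (x + v * (aR - x)) = 1 - x - v * (aR - x) := by ring
        rw [this]; exact h3.ne'
      field_simp
      ring
    rw [e, le_div_iff₀ (mul_pos (by linarith) h4)]
    exact h1
  · intro v hv
    have hX := (abs_le.1 (abs_seg_le ax aaL hv.1 hv.2)).1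
    have hXY : x + v * (aL - x) ≤ x := by
      have := mul_nonneg hv.1 (by linarith : 0 ≤ x - aL)
      linarith
    have h1 := (harnack hs hS hX hXY hx1.le hξ).1
    have h3 : 0 < 1 - x + v * (x - aL) := by
      have := mul_nonneg hv.1 (by linarith : 0 ≤ x - aL)
      linarith
    have h4 : 0 < 1 + x := by linarith
    show _ ≤ φ (x + v * (aL - x))
    have e : φ x * ((1 - x) / (1 + x)) * (2 / (1 - x + v * (x - aL)) - 1) =
        φ x * ((1 - x) * (1 + (x + v * (aL - x)))) /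
          ((1 - (x + v * (aL - x))) * (1 + x)) := by
      have h5 : 1 - (x + v * (aL - x)) ≠ 0 := by
        have : 1 - (x + v * (aL - x)) = 1 - x + v * (x - aL) := by ring
        rw [this]; exact h3.ne'
      field_simp
      ring
    rw [e, div_le_iff₀ (mul_pos (by linarith) h4)]
    exact h1

theorem tri_B (hξ : ‖ξ‖ < 1) {aL aR C : ℝ} (hS : ‖S0‖ ≤ T0) (hx0 : -1 < x) (hx1 : x < 1)
    (hL : -1 ≤ aL) (hLx : aL ≤ x) (hxR : x ≤ aR) (hR : aR ≤ 1) (hLR : aL < aR) (hC : 0 ≤ C)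
    (hE : (C - (x - aL)) * phihat (1 + x) (x - aL) ≤ (C + (aR - x)) * psihat (1 + x) (aR - x)) :
    0 ≤ ∫ w, g3 ξ S0 T0 x aL aR (-C) w ∂(nu.prod (nu.prod nu)) := by
  have ax : |x| ≤ 1 := abs_le.2 ⟨hx0.le, hx1.le⟩
  have aaL : |aL| ≤ 1 := abs_le.2 ⟨hL, by linarith⟩
  have aaR : |aR| ≤ 1 := abs_le.2 ⟨by linarith, hR⟩
  refine tri_pos hξ (-C) hS ax aaL aaR hLR fun s hs => ?_
  set φ : ℝ → ℝ := fun X => hk ξ (zp s T0 S0 X) with hφ
  have hφ0 : ∀ X, |X| ≤ 1 → 0 ≤ φ X := fun X hX => (hk_pos hξ (norm_zp_le hs hS hX)).le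
  have hκ : 0 ≤ φ x * ((1 + x) / (1 - x)) :=
    mul_nonneg (hφ0 x ax) (div_nonneg (by linarith) (by linarith))
  have key := cmp (s := 1 + x) (w1 := x - aL) (w2 := aR - x) (C := C)
    (κ := φ x * ((1 + x) / (1 - x))) (g := fun v => φ (x + v * (aL - x)))
    (h := fun v => φ (x + v * (aR - x))) (by linarith) (by linarith) (by linarith) hC hκ
    (cont_hkzp hξ hs hS ax aaL) (cont_hkzp hξ hs hS ax aaR)
    (fun v hv => hφ0 _ (abs_seg_le ax aaL hv.1 hv.2))
    (fun v hv => hφ0 _ (abs_seg_le ax aaR hv.1 hv.2)) ?_ ?_ hE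
  · unfold JJ
    have e1 : ∀ y, (fun v => (1 - v) * φ (x + v * (y - x))) =
      fun v => (1 - v) * hk ξ (zp s T0 S0 (x + v * (y - x))) := fun y => rfl
    rw [e1, e1] at key
    linarith
  · intro v hv
    have hX := (abs_le.1 (abs_seg_le ax aaL hv.1 hv.2.le)).1
    have hXY : x + v * (aL - x) ≤ x := by
      have := mul_nonneg hv.1 (by linarith : 0 ≤ x - aL)
      linarith
    have h1 := (harnack hs hS hX hXY hx1.le hξ).2
    have h3 : 0 < 1 + x - v * (x - aL) := by nlinarith [hv.2, hv.1]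
    have h4 : 0 < 1 - x := by linarith
    show φ (x + v * (aL - x)) ≤ _
    have e : φ x * ((1 + x) / (1 - x)) * (2 / (1 + x - v * (x - aL)) - 1) =
        φ x * ((1 - (x + v * (aL - x))) * (1 + x)) /
          ((1 - x) * (1 + (x + v * (aL - x)))) := by
      have h5 : 1 + (x + v * (aL - x)) ≠ 0 := by
        have : 1 + (x + v * (aL - x)) = 1 + x - v * (x - aL) := by ring
        rw [this]; exact h3.ne'
      have e2 : 1 + x - v * (x - aL) = 1 + (x + v * (aL - x)) := by ring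
      rw [e2]
      field_simp
      ring
    rw [e, le_div_iff₀ (mul_pos h4 (by linarith))]
    exact h1
  · intro v hv
    have hY := (abs_le.1 (abs_seg_le ax aaR hv.1 hv.2)).2
    have hXY : x ≤ x + v * (aR - x) := by
      have := mul_nonneg hv.1 (by linarith : 0 ≤ aR - x)
      linarith
    have h1 := (harnack hs hS hx0.le hXY hY hξ).2
    have h3 : 0 < 1 + x + v * (aR - x) := by
      have := mul_nonneg hv.1 (by linarith : 0 ≤ aR - x)
      linarith
    have h4 : 0 < 1 - x := by linarith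
    show _ ≤ φ (x + v * (aR - x))
    have e : φ x * ((1 + x) / (1 - x)) * (2 / (1 + x + v * (aR - x)) - 1) =
        φ x * ((1 - (x + v * (aR - x))) * (1 + x)) /
          ((1 - x) * (1 + (x + v * (aR - x)))) := by
      have h5 : 1 + (x + v * (aR - x)) ≠ 0 := by
        have : 1 + (x + v * (aR - x)) = 1 + x + v * (aR - x) := by ring
        rw [this]; exact h3.ne'
      have e2 : 1 + x + v * (aR - x) = 1 + (x + v * (aR - x)) := by ring
      rw [e2]
      field_simp
      ring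
    rw [e, div_le_iff₀ (mul_pos h4 (by linarith))]
    exact h1

end

end Pool.Agent.HKone
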