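import Pool.Agent.HKone.KPairs
import Pool.Agent.K1.Real
import Pool.Agent.HStar.Asm
import Pool.Agent.HStar.Zone

set_option autoImplicit false

namespace Pool.Agent.HKone

open MeasureTheory Set Filter Topology Pool.Agent.HHalf Pool.Agent.HStar Function ComplexConjugate
  Polynomial

theorem omR_eval {N : ℕ} (L : Fin N → ℂ) (u : ℝ) : (omR L).eval u = K1.Wp L u := by
  unfold omR K1.Wp K1.pq
  rw [Polynomial.eval_prod]
  refine Finset.prod_congr rfl fun a _ => ?_
  simp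

theorem omR_deriv {N : ℕ} (L : Fin N → ℂ) (u : ℝ) :
    (derivative (omR L)).eval u = K1.dWp L u := by
  have h1 := (omR L).hasDerivAt u
  have h2 := K1.hasDerivAt_Wp L u
  have e : (fun x => (omR L).eval x) = K1.Wp L := by
    funext t; exact omR_eval L t
  rw [e] at h1
  exact h1.unique h2

/-- THE CASE `k = 1` IN THE MIDDLE REGION. -/
theorem pw_one {N : ℕ} (hN : 2 ≤ N) {L : Fin N → ℂ} (hL : ∀ a, ‖L a‖ ≤ 1) {x : ℝ} (hx0 : -1 < x)
    (hx1 : x < 1) {a b : Fin N} (ha : (1 + x) / 2 ≤ (L a).re) (hb : (L b).re ≤ (x - 1) / 2) :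
    PW L 1 x := by
  intro h hh hbd
  obtain ⟨y, hy, hM⟩ := exists_max L 1
  refine ⟨y, hy, ?_⟩
  have hcard : Fintype.card (Fin (2 * N)) = Fintype.card (Fin N × Bool) := by
    simp only [Fintype.card_fin, Fintype.card_prod, Fintype.card_bool]
    omega
  let e : Fin (2 * N) ≃ Fin N × Bool := Fintype.equivOfCardEq hcard
  have hz : ∀ i, ‖(zL L ∘ e) i‖ ≤ 1 := fun i => norm_zL hL (e i)
  have hprod : ∀ w : ℂ, ∏ i, (w - (zL L ∘ e) i) = (om (zL L)).eval w := by
    intro w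
    rw [← om_comp e (zL L), om, Polynomial.eval_prod]
    simp
  have hfun : (fun w : ℂ => (om (zL L)).eval w * h w) =
      fun w => (∏ i, (w - (zL L ∘ e) i)) * h w := by
    funext w; rw [hprod]
  have hx1' : ‖(x:ℂ)‖ ≤ 1 := by
    rw [Complex.norm_real, Real.norm_eq_abs]
    exact abs_le.2 ⟨hx0.le, hx1.le⟩
  have hder : ∀ u : ℝ, (hasseDeriv 1 (omR L)).eval u = K1.dWp L u := by
    intro u
    rw [hasseDeriv_one]
    exact omR_deriv L u
  have h0 : (om (zL L ∘ e)).eval (x:ℂ) = ((K1.Wp L x : ℝ) : ℂ) := by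
    have h1 := hasse_real L 0 x
    rw [hasseDeriv_zero, hasseDeriv_zero, LinearMap.id_apply, LinearMap.id_apply, omR_eval] at h1
    rw [om_comp e (zL L)]
    exact h1
  have h1 : (derivative (om (zL L ∘ e))).eval (x:ℂ) = ((K1.dWp L x : ℝ) : ℂ) := by
    have h2 := hasse_real L 1 x
    rw [hder] at h2
    rw [om_comp e (zL L), ← hasseDeriv_one]
    exact h2
  have hM' : ∀ u ∈ Icc (-1:ℝ) 1, |K1.dWp L u| ≤ |K1.dWp L y| := by
    intro u hu
    have := hM u hu
    rw [hder, hder] at this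
    exact this
  have hG := K1.G_all hN hL hM' hx0 hx1
  have hA := K1.Cs_pos (s := 1 - x) (by linarith)
  have hB := K1.Cs_pos (s := 1 + x) (by linarith)
  have hfr := zone_frame (z := zL L ∘ e) hz hx1' h0 h1 (K1.Wp_nonneg L x)
    (hM' x ⟨hx0.le, hx1.le⟩) hA.le hB.le (by linarith) (ρ0 := 0) (by norm_num)
    (fun ξ _ hξ => (kone hL hx0 hx1 ha hb e hξ).1) (fun ξ _ hξ => (kone hL hx0 hx1 ha hb e hξ).2)
    hG hh (by rw [← hfun]; exact hbd)
  rw [hfun, star_norm, hder]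
  refine hfr.trans (le_of_eq ?_)
  simp

end Pool.Agent.HKone
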