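import Pool.Agent.HKone.Cmp

set_option autoImplicit false

namespace Pool.Agent.HKone

open MeasureTheory Set Filter Topology Pool.Agent.HHalf Pool.Agent.HStar Function ComplexConjugate

section sums

variable {ι M : Type*} [Fintype ι] [DecidableEq ι] [AddCommMonoid M]

theorem sum_three {i j k : ι} (hij : i ≠ j) (hik : i ≠ k) (hjk : j ≠ k) (f : ι → M) :
    ∑ t, f t = f i + f j + f k + ∑ t ∈ ((Finset.univ.erase i).erase j).erase k, f t := by
  rw [sum_two hij f, ← Finset.add_sum_erase ((Finset.univ.erase i).erase j) f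
      (Finset.mem_erase.2 ⟨hjk.symm, Finset.mem_erase.2 ⟨hik.symm, Finset.mem_univ k⟩⟩), add_assoc,
      add_assoc, add_assoc]

end sums

/-- The functional `p - C p'`. -/
noncomputable def Lam {n : ℕ} (C : ℝ) (ξ : ℂ) (c : Fin (n + 1) → ℂ) : ℝ :=
  2 * (EE c 0 ξ).re - 1 - C * (2 * (EE c 1 ξ).re)

theorem Lam_eq {n : ℕ} {c : Fin (n + 1) → ℂ} (hc : ∀ i, ‖c i‖ ≤ 1) (C : ℝ) {ξ : ℂ}
    (hξ : ‖ξ‖ < 1) : Lam C ξ c = ∫ X, HH ξ C |X 0| (SS c X) (ST X) ∂mu (n + 1) := by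
  have b0 := bm_Ph hc 0 hξ
  have b1 := bm_Ph hc 1 hξ
  have i0 := b0.integrable (mu (n + 1))
  have i1 := b1.integrable (mu (n + 1))
  have r0 : (EE c 0 ξ).re = ∫ X, (Ph 0 ξ |X 0| (SS c X) (ST X)).re ∂mu (n + 1) := by
    unfold EE
    exact (integral_re i0).symm
  have r1 : (EE c 1 ξ).re = ∫ X, (Ph 1 ξ |X 0| (SS c X) (ST X)).re ∂mu (n + 1) := by
    unfold EE
    exact (integral_re i1).symm
  have j0 := (b0.re.const_mulr 2).integrable (mu (n + 1))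
  have j1 := ((b1.re.const_mulr 2).const_mulr C).integrable (mu (n + 1))
  have j2 : Integrable (fun _ : Fin (n + 1) → ℝ => (1:ℝ)) (mu (n + 1)) := integrable_const 1
  have j3 : Integrable (fun X : Fin (n + 1) → ℝ =>
      2 * (Ph 0 ξ |X 0| (SS c X) (ST X)).re - 1) (mu (n + 1)) := j0.sub j2
  simp only [HH_Ph]
  rw [integral_sub j3 j1, integral_sub j0 j2, integral_const_mul, integral_const_mul,
    integral_const_mul, ← r0, ← r1]
  unfold Lam
  simp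

theorem Lam_mid {n : ℕ} {c : Fin (n + 1) → ℂ} (hc : ∀ i, ‖c i‖ ≤ 1) (C : ℝ) {ξ : ℂ}
    (hξ : ‖ξ‖ < 1) {i l : Fin (n + 1)} (hil : i ≠ l) (hi : i ≠ 0) (hl : l ≠ 0) {m : ℂ}
    (hm : 2 * m = c i + c l) :
    Lam C ξ c = 1 / 2 * Lam C ξ (update c i m) + 1 / 2 * Lam C ξ (update c l m) := by
  have h0 := congrArg Complex.re (EE_mid hc 0 hξ hil hi hl hm)
  have h1 := congrArg Complex.re (EE_mid hc 1 hξ hil hi hl hm)
  have e : (1 / 2 : ℂ) = ((1 / 2 : ℝ) : ℂ) := by push_cast; rfl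
  rw [e, Complex.add_re, Complex.re_ofReal_mul, Complex.re_ofReal_mul] at h0 h1
  unfold Lam
  rw [h0, h1]
  ring

/-- A list with two real nodes. -/
theorem Lam_nonneg {n : ℕ} {c : Fin (n + 1) → ℂ} (hc : ∀ i, ‖c i‖ ≤ 1) (C : ℝ) {ξ : ℂ}
    (hξ : ‖ξ‖ < 1) {x aL aR : ℝ} {i k : Fin (n + 1)} (hi : i ≠ 0) (hk : k ≠ 0) (hik : i ≠ k)
    (h0 : c 0 = x) (hci : c i = aL) (hck : c k = aR)
    (h : ∀ (S0 : ℂ) (T0 : ℝ), ‖S0‖ ≤ T0 →
      0 ≤ ∫ w, g3 ξ S0 T0 x aL aR C w ∂(nu.prod (nu.prod nu))) : 0 ≤ Lam C ξ c := by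
  rw [Lam_eq hc C hξ]
  have hF : BM (fun X : Fin (n + 1) → ℝ => HH ξ C |X 0| (SS c X) (ST X)) :=
    bm_HH (measurable_pi_apply 0).abs (measurable_SS c) measurable_ST (fun _ => abs_nonneg _)
      (fun X => coord_le_ST X 0) (norm_SS_le hc) C hξ
  rw [resample3 (i := 0) (j := i) (k := k) hF]
  refine integral_nonneg fun X => ?_
  set S0 : ℂ := ∑ t ∈ ((Finset.univ.erase (0 : Fin (n + 1))).erase i).erase k,
    ((|X t| : ℝ) : ℂ) * c t with hS0
  set T0 : ℝ := ∑ t ∈ ((Finset.univ.erase (0 : Fin (n + 1))).erase i).erase k, |X t| with hT0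
  have hS : ‖S0‖ ≤ T0 := by
    rw [hS0, hT0]
    refine (norm_sum_le _ _).trans (Finset.sum_le_sum fun t _ => ?_)
    rw [norm_mul, Complex.norm_real, Real.norm_of_nonneg (abs_nonneg _)]
    exact mul_le_of_le_one_right (abs_nonneg _) (hc t)
  have e : ∀ a b d : ℝ, HH ξ C |(update (update (update X 0 a) i b) k d) 0|
      (SS c (update (update (update X 0 a) i b) k d))
      (ST (update (update (update X 0 a) i b) k d)) = g3 ξ S0 T0 x aL aR C (a, b, d) := by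
    intro a b d
    have u0 : (update (update (update X 0 a) i b) k d) 0 = a := by
      rw [update_of_ne hk.symm, update_of_ne hi.symm, update_self]
    have ui : (update (update (update X 0 a) i b) k d) i = b := by
      rw [update_of_ne hik, update_self]
    have uk : (update (update (update X 0 a) i b) k d) k = d := update_self _ _ _
    have ut : ∀ t ∈ ((Finset.univ.erase (0 : Fin (n + 1))).erase i).erase k,
        (update (update (update X 0 a) i b) k d) t = X t := by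
      intro t ht
      have h1 := (Finset.mem_erase.1 ht).1
      have h2 := (Finset.mem_erase.1 (Finset.mem_erase.1 ht).2).1
      have h3 := (Finset.mem_erase.1 (Finset.mem_erase.1 (Finset.mem_erase.1 ht).2).2).1
      rw [update_of_ne h1, update_of_ne h2, update_of_ne h3]
    have s1 : SS c (update (update (update X 0 a) i b) k d) =
        ((|a| : ℝ) : ℂ) * x + ((|b| : ℝ) : ℂ) * aL + ((|d| : ℝ) : ℂ) * aR + S0 := by
      unfold SS
      rw [sum_three hi.symm hk.symm hik, u0, ui, uk, h0, hci, hck, hS0]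
      congr 1
      exact Finset.sum_congr rfl fun t ht => by rw [ut t ht]
    have s2 : ST (update (update (update X 0 a) i b) k d) = |a| + |b| + |d| + T0 := by
      unfold ST
      rw [sum_three hi.symm hk.symm hik, u0, ui, uk, hT0]
      congr 1
      exact Finset.sum_congr rfl fun t ht => by rw [ut t ht]
    rw [u0, s1, s2]
    rfl
  have h1 := h S0 T0 hS
  have hb : BM (g3 ξ S0 T0 x aL aR C) := by
    have ax : |x| ≤ 1 := by
      have := hc 0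
      rw [h0, Complex.norm_real] at this
      exact this
    have aaL : |aL| ≤ 1 := by
      have := hc i
      rw [hci, Complex.norm_real] at this
      exact this
    have aaR : |aR| ≤ 1 := by
      have := hc k
      rw [hck, Complex.norm_real] at this
      exact this
    exact bm_g3 hξ C hS ax aaL aaR
  rw [integral_prod _ (hb.integrable _)] at h1
  have h2 : ∀ a, ∫ q, g3 ξ S0 T0 x aL aR C (a, q) ∂(nu.prod nu) =
      ∫ b, ∫ d, g3 ξ S0 T0 x aL aR C (a, b, d) ∂nu ∂nu := by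
    intro a
    have hb2 : BM (fun q : ℝ × ℝ => g3 ξ S0 T0 x aL aR C (a, q)) :=
      hb.comp (measurable_const.prodMk measurable_id)
    exact integral_prod _ (hb2.integrable _)
  simp only [h2] at h1
  simp only [e]
  exact h1

/-- A list with two conjugate pairs. -/
theorem Lam_pairs {n : ℕ} {c : Fin (n + 1) → ℂ} (hc : ∀ i, ‖c i‖ ≤ 1) (C : ℝ) {ξ : ℂ}
    (hξ : ‖ξ‖ < 1) {x : ℝ} {l1 l2 r1 r2 : Fin (n + 1)} (hl1 : l1 ≠ 0) (hl2 : l2 ≠ 0) (hr1 : r1 ≠ 0)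
    (hr2 : r2 ≠ 0) (hl : l1 ≠ l2) (hr : r1 ≠ r2) (h11 : l1 ≠ r1) (h12 : l1 ≠ r2) (h21 : l2 ≠ r1)
    (h22 : l2 ≠ r2) (h0 : c 0 = x) (hcl : c l2 = conj (c l1)) (hcr : c r2 = conj (c r1))
    (h : ∀ (S0 : ℂ) (T0 : ℝ), ‖S0‖ ≤ T0 →
      0 ≤ ∫ w, g3 ξ S0 T0 x (c l1).re (c r1).re C w ∂(nu.prod (nu.prod nu))) :
    0 ≤ Lam C ξ c := by
  have nre : ∀ z : ℂ, ‖z‖ ≤ 1 → ‖((z.re : ℝ) : ℂ)‖ ≤ 1 := by
    intro z hz
    rw [Complex.norm_real]
    exact (Complex.abs_re_le_norm z).trans hz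
  have hup : ∀ {d : Fin (n + 1) → ℂ} {i : Fin (n + 1)} {m : ℂ}, (∀ t, ‖d t‖ ≤ 1) → ‖m‖ ≤ 1 →
      ∀ t, ‖update d i m t‖ ≤ 1 := by
    intro d i m hd hm t
    rcases eq_or_ne t i with rfl | ht
    · rw [update_self]; exact hm
    · rw [update_of_ne ht]; exact hd t
  have two_re : ∀ z : ℂ, 2 * ((z.re : ℝ) : ℂ) = z + conj z := by
    intro z
    rw [Complex.add_conj]
    push_cast
    ring
  set aL : ℂ := (((c l1).re : ℝ) : ℂ) with haL
  set aR : ℂ := (((c r1).re : ℝ) : ℂ) with haR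
  have naL : ‖aL‖ ≤ 1 := nre _ (hc l1)
  have naR : ‖aR‖ ≤ 1 := nre _ (hc r1)
  have step : ∀ d : Fin (n + 1) → ℂ, (∀ t, ‖d t‖ ≤ 1) → d 0 = x → (d l1 = aL ∨ d l2 = aL) →
      d r1 = c r1 → d r2 = c r2 → 0 ≤ Lam C ξ d := by
    intro d hd hd0 hdl hdr1 hdr2
    have hm : 2 * aR = d r1 + d r2 := by
      rw [hdr1, hdr2, hcr]
      exact two_re _
    rw [Lam_mid hd C hξ hr hr1 hr2 hm]
    have q1 : 0 ≤ Lam C ξ (update d r1 aR) := by
      rcases hdl with hdl | hdl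
      · exact Lam_nonneg (hup hd naR) C hξ hl1 hr1 h11 (by rw [update_of_ne hr1.symm, hd0])
          (by rw [update_of_ne h11, hdl]) (by rw [update_self]) h
      · exact Lam_nonneg (hup hd naR) C hξ hl2 hr1 h21 (by rw [update_of_ne hr1.symm, hd0])
          (by rw [update_of_ne h21, hdl]) (by rw [update_self]) h
    have q2 : 0 ≤ Lam C ξ (update d r2 aR) := by
      rcases hdl with hdl | hdl
      · exact Lam_nonneg (hup hd naR) C hξ hl1 hr2 h12 (by rw [update_of_ne hr2.symm, hd0])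
          (by rw [update_of_ne h12, hdl]) (by rw [update_self]) h
      · exact Lam_nonneg (hup hd naR) C hξ hl2 hr2 h22 (by rw [update_of_ne hr2.symm, hd0])
          (by rw [update_of_ne h22, hdl]) (by rw [update_self]) h
    linarith
  have hm : 2 * aL = c l1 + c l2 := by
    rw [hcl]
    exact two_re _
  rw [Lam_mid hc C hξ hl hl1 hl2 hm]
  have q1 := step (update c l1 aL) (hup hc naL) (by rw [update_of_ne hl1.symm, h0])
    (Or.inl (update_self _ _ _)) (by rw [update_of_ne h11.symm]) (by rw [update_of_ne h12.symm])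
  have q2 := step (update c l2 aL) (hup hc naL) (by rw [update_of_ne hl2.symm, h0])
    (Or.inr (update_self _ _ _)) (by rw [update_of_ne h21.symm]) (by rw [update_of_ne h22.symm])
  linarith

/-- THE TWO KERNEL BOUNDS OF THE CASE `k = 1`. `z` contains two conjugate pairs `z l1, z l2` and
`z r1, z r2` with `Re z l1 ≤ x ≤ Re z r1`. -/
theorem kern_A {n : ℕ} {z : Fin n → ℂ} (hz : ∀ i, ‖z i‖ ≤ 1) {x : ℝ} (hx0 : -1 < x) (hx1 : x < 1)
    {l1 l2 r1 r2 : Fin n} (hl : l1 ≠ l2) (hr : r1 ≠ r2) (h11 : l1 ≠ r1) (h12 : l1 ≠ r2)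
    (h21 : l2 ≠ r1) (h22 : l2 ≠ r2) (hcl : z l2 = conj (z l1)) (hcr : z r2 = conj (z r1))
    (hLx : (z l1).re ≤ x) (hxR : x ≤ (z r1).re) (hLR : (z l1).re < (z r1).re) {C : ℝ} (hC : 0 ≤ C)
    (hE : (C - ((z r1).re - x)) * phihat (1 - x) ((z r1).re - x) ≤
      (C + (x - (z l1).re)) * psihat (1 - x) (x - (z l1).re)) {ξ : ℂ} (hξ : ‖ξ‖ < 1) :
    C * (2 * (KK z x 1 ξ).re) ≤ 2 * (KK z x 0 ξ).re - 1 := by
  have hx : ‖(x : ℂ)‖ ≤ 1 := by
    rw [Complex.norm_real]; exact abs_le.2 ⟨hx0.le, hx1.le⟩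
  have re1 : ∀ i, -1 ≤ (z i).re ∧ (z i).re ≤ 1 := fun i =>
    abs_le.1 ((Complex.abs_re_le_norm _).trans (hz i))
  have hs : ∀ {i j : Fin n}, i ≠ j → i.succ ≠ j.succ := fun h h2 => h (Fin.succ_injective _ h2)
  have h := Lam_pairs (c := (Fin.cons (x : ℂ) z : Fin (n + 1) → ℂ)) (cons_le hz hx) C hξ (x := x)
    (l1 := l1.succ) (l2 := l2.succ) (r1 := r1.succ) (r2 := r2.succ) (Fin.succ_ne_zero _)
    (Fin.succ_ne_zero _) (Fin.succ_ne_zero _) (Fin.succ_ne_zero _) (hs hl) (hs hr) (hs h11)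
    (hs h12) (hs h21) (hs h22) (Fin.cons_zero _ _) (by simpa using hcl) (by simpa using hcr) (by
      intro S0 T0 hS
      rw [Fin.cons_succ, Fin.cons_succ]
      exact tri_A hξ hS hx0 hx1 (re1 l1).1 hLx hxR (re1 r1).2 hLR hC hE)
  unfold Lam at h
  rw [← KK_eq, ← KK_eq] at h
  linarith

theorem kern_B {n : ℕ} {z : Fin n → ℂ} (hz : ∀ i, ‖z i‖ ≤ 1) {x : ℝ} (hx0 : -1 < x) (hx1 : x < 1)
    {l1 l2 r1 r2 : Fin n} (hl : l1 ≠ l2) (hr : r1 ≠ r2) (h11 : l1 ≠ r1) (h12 : l1 ≠ r2)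
    (h21 : l2 ≠ r1) (h22 : l2 ≠ r2) (hcl : z l2 = conj (z l1)) (hcr : z r2 = conj (z r1))
    (hLx : (z l1).re ≤ x) (hxR : x ≤ (z r1).re) (hLR : (z l1).re < (z r1).re) {C : ℝ} (hC : 0 ≤ C)
    (hE : (C - (x - (z l1).re)) * phihat (1 + x) (x - (z l1).re) ≤
      (C + ((z r1).re - x)) * psihat (1 + x) ((z r1).re - x)) {ξ : ℂ} (hξ : ‖ξ‖ < 1) :
    -(C * (2 * (KK z x 1 ξ).re)) ≤ 2 * (KK z x 0 ξ).re - 1 := by
  have hx : ‖(x : ℂ)‖ ≤ 1 := by
    rw [Complex.norm_real]; exact abs_le.2 ⟨hx0.le, hx1.le⟩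
  have re1 : ∀ i, -1 ≤ (z i).re ∧ (z i).re ≤ 1 := fun i =>
    abs_le.1 ((Complex.abs_re_le_norm _).trans (hz i))
  have hs : ∀ {i j : Fin n}, i ≠ j → i.succ ≠ j.succ := fun h h2 => h (Fin.succ_injective _ h2)
  have h := Lam_pairs (c := (Fin.cons (x : ℂ) z : Fin (n + 1) → ℂ)) (cons_le hz hx) (-C) hξ (x := x)
    (l1 := l1.succ) (l2 := l2.succ) (r1 := r1.succ) (r2 := r2.succ) (Fin.succ_ne_zero _)
    (Fin.succ_ne_zero _) (Fin.succ_ne_zero _) (Fin.succ_ne_zero _) (hs hl) (hs hr) (hs h11)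
    (hs h12) (hs h21) (hs h22) (Fin.cons_zero _ _) (by simpa using hcl) (by simpa using hcr) (by
      intro S0 T0 hS
      rw [Fin.cons_succ, Fin.cons_succ]
      exact tri_B hξ hS hx0 hx1 (re1 l1).1 hLx hxR (re1 r1).2 hLR hC hE)
  unfold Lam at h
  rw [← KK_eq, ← KK_eq] at h
  linarith

end Pool.Agent.HKone
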