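import Mathlib

set_option autoImplicit false

namespace Pool.Agent.HKone

open Complex

/-- The kernel `Re ((1 + ξ Z)/(1 - ξ Z))`. -/
noncomputable def hk (ξ Z : ℂ) : ℝ := 2 * (1 / (1 - ξ * Z)).re - 1

/-- Its derivative in the real direction. -/
noncomputable def dk (ξ Z : ℂ) : ℝ := 2 * (ξ / (1 - ξ * Z) ^ 2).re

theorem one_sub_ne {ξ Z : ℂ} (hξ : ‖ξ‖ < 1) (hZ : ‖Z‖ ≤ 1) : 1 - ξ * Z ≠ 0 := by
  intro h
  have h1 : ξ * Z = 1 := by linear_combination -h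
  have h2 : ‖ξ * Z‖ < 1 := by
    rw [norm_mul]
    nlinarith [norm_nonneg ξ, norm_nonneg Z]
  rw [h1, norm_one] at h2
  exact lt_irrefl _ h2

theorem hk_eq {ξ Z : ℂ} (h : 1 - ξ * Z ≠ 0) :
    hk ξ Z = (1 - normSq (ξ * Z)) / normSq (1 - ξ * Z) := by
  have h1 : normSq (1 - ξ * Z) ≠ 0 := by rwa [Ne, normSq_eq_zero]
  unfold hk
  rw [one_div, Complex.inv_re]
  field_simp
  simp only [normSq_apply, Complex.sub_re, Complex.sub_im, Complex.one_re, Complex.one_im]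
  ring

theorem hk_pos {ξ Z : ℂ} (hξ : ‖ξ‖ < 1) (hZ : ‖Z‖ ≤ 1) : 0 < hk ξ Z := by
  have h := one_sub_ne hξ hZ
  rw [hk_eq h]
  have h1 : 0 < normSq (1 - ξ * Z) := normSq_pos.2 h
  have h2 : ‖ξ * Z‖ < 1 := by
    rw [norm_mul]
    nlinarith [norm_nonneg ξ, norm_nonneg Z]
  have h3 : normSq (ξ * Z) < 1 := by
    rw [normSq_eq_norm_sq]
    nlinarith [norm_nonneg (ξ * Z)]
  apply div_pos _ h1
  linarith

/-- The point of the segment. -/
noncomputable def zp (s w : ℝ) (W : ℂ) (X : ℝ) : ℂ := ((s * X : ℝ) + W) / ((s + w : ℝ) : ℂ)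

theorem norm_zp_le {s w : ℝ} {W : ℂ} {X : ℝ} (hs : 0 < s) (hW : ‖W‖ ≤ w) (hX : |X| ≤ 1) :
    ‖zp s w W X‖ ≤ 1 := by
  have hw : 0 ≤ w := (norm_nonneg _).trans hW
  unfold zp
  rw [norm_div, Complex.norm_real, Real.norm_of_nonneg (by linarith : 0 ≤ s + w)]
  apply div_le_one_of_le₀ _ (by linarith)
  refine (norm_add_le _ _).trans ?_
  rw [Complex.norm_real, Real.norm_eq_abs, abs_mul, abs_of_pos hs]
  nlinarith

/-- `1 - |ξ Z(X)|² ≥ (|ξ| s/(s+w)) (1 - X²)`. -/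
theorem dist_ge {s w : ℝ} {W ξ : ℂ} {X : ℝ} (hs : 0 < s) (hW : ‖W‖ ≤ w) (hX : |X| ≤ 1)
    (hξ : ‖ξ‖ < 1) : ‖ξ‖ * (s / (s + w)) * (1 - X ^ 2) ≤ 1 - normSq (ξ * zp s w W X) := by
  have hw : 0 ≤ w := (norm_nonneg _).trans hW
  have hsw : 0 < s + w := by linarith
  have h1 : ‖zp s w W X‖ ≤ (s * |X| + w) / (s + w) := by
    unfold zp
    rw [norm_div, Complex.norm_real, Real.norm_of_nonneg hsw.le]
    apply div_le_div_of_nonneg_right _ hsw.le
    refine (norm_add_le _ _).trans ?_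
    rw [Complex.norm_real, Real.norm_eq_abs, abs_mul, abs_of_pos hs]
    linarith
  have h2 : normSq (ξ * zp s w W X) ≤ (‖ξ‖ * ((s * |X| + w) / (s + w))) ^ 2 := by
    rw [normSq_eq_norm_sq, norm_mul]
    apply pow_le_pow_left₀ (by positivity)
    exact mul_le_mul_of_nonneg_left h1 (norm_nonneg _)
  have hX2 : |X| ^ 2 = X ^ 2 := sq_abs X
  have h3 : ((s * |X| + w) / (s + w)) ^ 2 ≤ 1 - s / (s + w) * (1 - X ^ 2) := by
    rw [div_pow, div_le_iff₀ (by positivity)]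
    have e : (1 - s / (s + w) * (1 - X ^ 2)) * (s + w) ^ 2 =
        (s + w) ^ 2 - s * (s + w) * (1 - X ^ 2) := by
      field_simp
    rw [e, ← hX2]
    have h4 : 0 ≤ s * w * (1 - |X|) ^ 2 := by positivity
    nlinarith
  have h4 : ‖ξ‖ ^ 2 ≤ ‖ξ‖ := by nlinarith [norm_nonneg ξ]
  have h5 : (0:ℝ) ≤ s / (s + w) * (1 - X ^ 2) := by
    apply mul_nonneg (by positivity)
    nlinarith [abs_nonneg X]
  have h6 : s / (s + w) * (1 - X ^ 2) ≤ 1 := by
    have h7 : s / (s + w) ≤ 1 := (div_le_one hsw).2 (by linarith)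
    have h8 : (0:ℝ) ≤ s / (s + w) := by positivity
    nlinarith [sq_nonneg X]
  have h7 : (‖ξ‖ * ((s * |X| + w) / (s + w))) ^ 2 ≤ ‖ξ‖ * (1 - s / (s + w) * (1 - X ^ 2)) := by
    rw [mul_pow]
    apply mul_le_mul h4 h3 (by positivity) (norm_nonneg _)
  have h8 := norm_nonneg ξ
  nlinarith

/-- Abstract Harnack inequality. -/
theorem harnack_abs {p q R t : ℝ} (hp : 0 < p) (hR : 1 ≤ R) (h : (p - q) ^ 2 ≤ 4 * t * (p * q))
    (ht : (R - 1) ^ 2 = 4 * t * R) (hq : 0 < q) : q ≤ R * p := by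
  by_contra hc
  push Not at hc
  have h1 : 0 < q - R * p := by linarith
  have h2 : 0 < R * q - p := by nlinarith
  have h3 : 0 < (R * q - p) * (q - R * p) := mul_pos h2 h1
  have h4 : (p - q) ^ 2 * R ≤ (R - 1) ^ 2 * (p * q) := by
    rw [ht]; nlinarith
  nlinarith

/-- Harnack on the diameter, with values pulled back by `zp`. -/
theorem harnack {s w : ℝ} {W ξ : ℂ} {X Y : ℝ} (hs : 0 < s) (hW : ‖W‖ ≤ w) (hX : -1 ≤ X)
    (hXY : X ≤ Y) (hY : Y ≤ 1) (hξ : ‖ξ‖ < 1) :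
    hk ξ (zp s w W Y) * ((1 - Y) * (1 + X)) ≤ hk ξ (zp s w W X) * ((1 - X) * (1 + Y)) ∧
    hk ξ (zp s w W X) * ((1 - Y) * (1 + X)) ≤ hk ξ (zp s w W Y) * ((1 - X) * (1 + Y)) := by
  have hw : 0 ≤ w := (norm_nonneg _).trans hW
  have hsw : 0 < s + w := by linarith
  have aX : |X| ≤ 1 := abs_le.2 ⟨hX, hXY.trans hY⟩
  have aY : |Y| ≤ 1 := abs_le.2 ⟨hX.trans hXY, hY⟩
  have nX := norm_zp_le hs hW aX
  have nY := norm_zp_le hs hW aY
  have pX := hk_pos hξ nX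
  have pY := hk_pos hξ nY
  have hX1 : X ≤ 1 := hXY.trans hY
  have hY1 : -1 ≤ Y := hX.trans hXY
  -- trivial end cases
  rcases eq_or_lt_of_le hX with h0 | hX0
  · rw [← h0]
    have e1 : (1 - Y) * (1 + (-1:ℝ)) = 0 := by ring
    rw [e1, mul_zero, mul_zero]
    rw [← h0] at pX
    constructor
    · apply mul_nonneg pX.le; nlinarith
    · apply mul_nonneg pY.le; nlinarith
  rcases eq_or_lt_of_le hY with h0 | hY0
  · subst h0
    have e1 : (1 - (1:ℝ)) * (1 + X) = 0 := by ring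
    rw [e1, mul_zero, mul_zero]
    constructor
    · apply mul_nonneg pX.le; nlinarith
    · apply mul_nonneg pY.le; nlinarith
  have neX := one_sub_ne hξ nX
  have neY := one_sub_ne hξ nY
  have sX : 0 < normSq (1 - ξ * zp s w W X) := normSq_pos.2 neX
  have sY : 0 < normSq (1 - ξ * zp s w W Y) := normSq_pos.2 neY
  have dX := dist_ge (ξ := ξ) hs hW aX hξ
  have dY := dist_ge (ξ := ξ) hs hW aY hξ
  set β : ℝ := ‖ξ‖ * (s / (s + w)) with hβ
  have hβ0 : 0 ≤ β := by positivity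
  have hX2 : 0 < 1 - X ^ 2 := by nlinarith
  have hY2 : 0 < 1 - Y ^ 2 := by nlinarith
  -- Schwarz-Pick
  have hprod : β ^ 2 * ((1 - X ^ 2) * (1 - Y ^ 2)) ≤
      (1 - normSq (ξ * zp s w W X)) * (1 - normSq (ξ * zp s w W Y)) := by
    have := mul_le_mul dX dY (by positivity) ((by positivity : 0 ≤ β * (1 - X ^ 2)).trans dX)
    calc β ^ 2 * ((1 - X ^ 2) * (1 - Y ^ 2)) = β * (1 - X ^ 2) * (β * (1 - Y ^ 2)) := by ring
      _ ≤ _ := this
  have hdiff : (hk ξ (zp s w W X) - hk ξ (zp s w W Y)) ^ 2 ≤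
      4 * (β ^ 2 * (X - Y) ^ 2) / (normSq (1 - ξ * zp s w W X) * normSq (1 - ξ * zp s w W Y)) := by
    have e1 : hk ξ (zp s w W X) - hk ξ (zp s w W Y) =
        (2 * (1 / (1 - ξ * zp s w W X) - 1 / (1 - ξ * zp s w W Y))).re := by
      unfold hk
      simp only [Complex.mul_re, Complex.sub_re, Complex.re_ofNat, Complex.im_ofNat, zero_mul,
        sub_zero]
      ring
    have e2 : (2 : ℂ) * (1 / (1 - ξ * zp s w W X) - 1 / (1 - ξ * zp s w W Y)) =
        2 * (ξ * ((s / (s + w) * (X - Y) : ℝ) : ℂ)) /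
          ((1 - ξ * zp s w W X) * (1 - ξ * zp s w W Y)) := by
      have e3 : zp s w W X - zp s w W Y = ((s / (s + w) * (X - Y) : ℝ) : ℂ) := by
        unfold zp
        have : ((s + w : ℝ) : ℂ) ≠ 0 := by exact_mod_cast hsw.ne'
        rw [← sub_div]
        push_cast at this ⊢
        field_simp
        ring
      rw [← e3]
      field_simp
      ring
    have e4 : (2 : ℂ) * (1 / (1 - ξ * zp s w W X) - 1 / (1 - ξ * zp s w W Y)) =
        2 * (1 / (1 - ξ * zp s w W X) - 1 / (1 - ξ * zp s w W Y)) := rfl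
    rw [e1]
    have h1 := Complex.abs_re_le_norm (2 * (1 / (1 - ξ * zp s w W X) - 1 / (1 - ξ * zp s w W Y)))
    have h2 : (2 * (1 / (1 - ξ * zp s w W X) - 1 / (1 - ξ * zp s w W Y))).re ^ 2 ≤
        ‖2 * (1 / (1 - ξ * zp s w W X) - 1 / (1 - ξ * zp s w W Y))‖ ^ 2 := by
      rw [← sq_abs (Complex.re _)]
      exact pow_le_pow_left₀ (abs_nonneg _) h1 2
    refine h2.trans (le_of_eq ?_)
    rw [e2, norm_div, norm_mul, norm_mul, norm_mul, Complex.norm_real, div_pow, mul_pow, mul_pow,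
      mul_pow, ← normSq_eq_norm_sq (1 - _), ← normSq_eq_norm_sq (1 - _), Real.norm_eq_abs, sq_abs,
      Complex.norm_ofNat]
    congr 1
    rw [hβ]
    ring
  have hmain : (hk ξ (zp s w W X) - hk ξ (zp s w W Y)) ^ 2 ≤
      4 * ((X - Y) ^ 2 / ((1 - X ^ 2) * (1 - Y ^ 2))) *
        (hk ξ (zp s w W X) * hk ξ (zp s w W Y)) := by
    refine hdiff.trans ?_
    rw [hk_eq neX, hk_eq neY, div_mul_div_comm, ← mul_div_assoc]
    apply div_le_div_of_nonneg_right _ (by positivity)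
    have h4 : β ^ 2 ≤ (1 - normSq (ξ * zp s w W X)) * (1 - normSq (ξ * zp s w W Y)) /
        ((1 - X ^ 2) * (1 - Y ^ 2)) := by
      rw [le_div_iff₀ (by positivity)]
      exact hprod
    calc 4 * (β ^ 2 * (X - Y) ^ 2) ≤ 4 * ((1 - normSq (ξ * zp s w W X)) *
          (1 - normSq (ξ * zp s w W Y)) / ((1 - X ^ 2) * (1 - Y ^ 2)) * (X - Y) ^ 2) := by
          apply mul_le_mul_of_nonneg_left _ (by norm_num)
          exact mul_le_mul_of_nonneg_right h4 (sq_nonneg _)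
      _ = _ := by ring
  set R : ℝ := ((1 - X) * (1 + Y)) / ((1 - Y) * (1 + X)) with hR
  have hden : 0 < (1 - Y) * (1 + X) := by
    apply mul_pos <;> linarith
  have hR1 : 1 ≤ R := by
    rw [hR, le_div_iff₀ hden]
    nlinarith
  have ht : (R - 1) ^ 2 = 4 * ((X - Y) ^ 2 / ((1 - X ^ 2) * (1 - Y ^ 2))) * R := by
    rw [hR]
    have h5 : (1 - Y) ≠ 0 := by intro h; nlinarith
    have h6 : (1 + X) ≠ 0 := by intro h; nlinarith
    have h7 : (1 - X) ≠ 0 := by intro h; nlinarith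
    have h8 : (1 + Y) ≠ 0 := by intro h; nlinarith
    have e1 : 1 - X ^ 2 = (1 - X) * (1 + X) := by ring
    have e2 : 1 - Y ^ 2 = (1 - Y) * (1 + Y) := by ring
    rw [e1, e2]
    field_simp
    ring
  have r1 := harnack_abs pX hR1 hmain ht pY
  have r2 := harnack_abs pY hR1 (by
    have e : (hk ξ (zp s w W Y) - hk ξ (zp s w W X)) ^ 2 =
      (hk ξ (zp s w W X) - hk ξ (zp s w W Y)) ^ 2 := by ring
    rw [e, mul_comm (hk ξ (zp s w W Y))]
    exact hmain) ht pX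
  rw [hR, div_mul_eq_mul_div, le_div_iff₀ hden] at r1 r2
  constructor
  · linarith
  · linarith

end Pool.Agent.HKone
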