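import Pool.Agent.HKone.Resamp

set_option autoImplicit false

namespace Pool.Agent.HKone

open MeasureTheory Set Filter Topology Pool.Agent.HHalf Pool.Agent.HStar Function

/-- `∑ |X_i| c_i`. -/
noncomputable def SS {m : ℕ} (c : Fin m → ℂ) (X : Fin m → ℝ) : ℂ := ∑ i, ((|X i| : ℝ) : ℂ) * c i

/-- `∑ |X_i|`. -/
def ST {m : ℕ} (X : Fin m → ℝ) : ℝ := ∑ i, |X i|

/-- The integrand as a function of the first coordinate and the two sums. -/
noncomputable def Ph (j : ℕ) (ξ : ℂ) (a : ℝ) (S : ℂ) (T : ℝ) : ℂ :=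
  ((a / T : ℝ) : ℂ) ^ j * (ξ ^ j / (1 - ξ * (S / (T : ℂ))) ^ (j + 1))

/-- The functional for the list `c` (node `0` carries the weight). -/
noncomputable def EE {n : ℕ} (c : Fin (n + 1) → ℂ) (j : ℕ) (ξ : ℂ) : ℂ :=
  ∫ X, Ph j ξ |X 0| (SS c X) (ST X) ∂mu (n + 1)

theorem measurable_SS {m : ℕ} (c : Fin m → ℂ) : Measurable (fun X : Fin m → ℝ => SS c X) := by
  unfold SS
  exact Finset.measurable_sum _ fun i _ =>
    (Complex.measurable_ofReal.comp (measurable_pi_apply i).abs).mul_const _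

theorem measurable_ST {m : ℕ} : Measurable (fun X : Fin m → ℝ => ST X) := by
  unfold ST
  exact Finset.measurable_sum _ fun i _ => (measurable_pi_apply i).abs

theorem measurable_Ph (j : ℕ) (ξ : ℂ) :
    Measurable (fun q : ℝ × ℂ × ℝ => Ph j ξ q.1 q.2.1 q.2.2) := by
  unfold Ph
  have hT : Measurable (fun q : ℝ × ℂ × ℝ => q.2.2) := measurable_snd.snd
  have hS : Measurable (fun q : ℝ × ℂ × ℝ => q.2.1) := measurable_snd.fst
  have ha : Measurable (fun q : ℝ × ℂ × ℝ => q.1) := measurable_fst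
  refine Measurable.mul ?_ ?_
  · exact (Complex.measurable_ofReal.comp (ha.div hT)).pow_const j
  · refine Measurable.div measurable_const ?_
    exact (measurable_const.sub ((hS.div (Complex.measurable_ofReal.comp hT)).const_mul ξ)).pow_const _

theorem norm_div_le {S : ℂ} {T : ℝ} (hS : ‖S‖ ≤ T) : ‖S / (T : ℂ)‖ ≤ 1 := by
  have hT : 0 ≤ T := (norm_nonneg _).trans hS
  rw [norm_div, Complex.norm_real, Real.norm_of_nonneg hT]
  exact div_le_one_of_le₀ hS hT

theorem norm_Ph_le (j : ℕ) {ξ : ℂ} (hξ : ‖ξ‖ < 1) {a T : ℝ} {S : ℂ} (ha : 0 ≤ a) (haT : a ≤ T)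
    (hS : ‖S‖ ≤ T) : ‖Ph j ξ a S T‖ ≤ 1 / (1 - ‖ξ‖) ^ (j + 1) := by
  have hT : 0 ≤ T := ha.trans haT
  unfold Ph
  rw [norm_mul, norm_pow, Complex.norm_real, Real.norm_of_nonneg (div_nonneg ha hT)]
  have h1 : (a / T) ^ j ≤ 1 := pow_le_one₀ (div_nonneg ha hT) (div_le_one_of_le₀ haT hT)
  have h2 := norm_kern_le j (ξ := ξ) (u := S / (T : ℂ)) hξ le_rfl (norm_div_le hS)
  calc _ ≤ 1 * (1 / (1 - ‖ξ‖) ^ (j + 1)) := mul_le_mul h1 h2 (norm_nonneg _) zero_le_one
    _ = _ := one_mul _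

theorem ST_nonneg {m : ℕ} (X : Fin m → ℝ) : 0 ≤ ST X := Finset.sum_nonneg fun i _ => abs_nonneg _

theorem coord_le_ST {m : ℕ} (X : Fin m → ℝ) (i : Fin m) : |X i| ≤ ST X :=
  Finset.single_le_sum (f := fun i => |X i|) (fun i _ => abs_nonneg _) (Finset.mem_univ i)

theorem norm_SS_le {m : ℕ} {c : Fin m → ℂ} (hc : ∀ i, ‖c i‖ ≤ 1) (X : Fin m → ℝ) :
    ‖SS c X‖ ≤ ST X := by
  unfold SS ST
  refine (norm_sum_le _ _).trans (Finset.sum_le_sum fun i _ => ?_)
  rw [norm_mul, Complex.norm_real, Real.norm_of_nonneg (abs_nonneg _)]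
  exact mul_le_of_le_one_right (abs_nonneg _) (hc i)

theorem bm_Ph {n : ℕ} {c : Fin (n + 1) → ℂ} (hc : ∀ i, ‖c i‖ ≤ 1) (j : ℕ) {ξ : ℂ} (hξ : ‖ξ‖ < 1) :
    BM (fun X : Fin (n + 1) → ℝ => Ph j ξ |X 0| (SS c X) (ST X)) := by
  refine ⟨Measurable.stronglyMeasurable ?_, 1 / (1 - ‖ξ‖) ^ (j + 1), fun X =>
    norm_Ph_le j hξ (abs_nonneg _) (coord_le_ST X 0) (norm_SS_le hc X)⟩
  exact (measurable_Ph j ξ).comp
    ((measurable_pi_apply 0).abs.prodMk ((measurable_SS c).prodMk measurable_ST))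

theorem KK_eq {n : ℕ} (z : Fin n → ℂ) (x : ℂ) (j : ℕ) (ξ : ℂ) :
    KK z x j ξ = EE (Fin.cons x z : Fin (n + 1) → ℂ) j ξ := by
  unfold KK EE
  refine integral_congr_ae ?_
  filter_upwards [mu_pos (n + 1)] with X hX
  have h1 : ST X = TT X := Finset.sum_congr rfl fun i _ => abs_of_pos (hX i)
  have h2 : SS (Fin.cons x z : Fin (n + 1) → ℂ) X =
      ∑ i, (X i : ℂ) * (Fin.cons x z : Fin (n + 1) → ℂ) i :=
    Finset.sum_congr rfl fun i _ => by rw [abs_of_pos (hX i)]
  unfold Ph ZZ DD w0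
  rw [h1, h2, abs_of_pos (hX 0)]

section sums

variable {ι M : Type*} [Fintype ι] [DecidableEq ι] [AddCommMonoid M]

theorem sum_two {i l : ι} (h : i ≠ l) (f : ι → M) :
    ∑ t, f t = f i + f l + ∑ t ∈ (Finset.univ.erase i).erase l, f t := by
  rw [← Finset.add_sum_erase Finset.univ f (Finset.mem_univ i),
    ← Finset.add_sum_erase (Finset.univ.erase i) f
      (Finset.mem_erase.2 ⟨h.symm, Finset.mem_univ l⟩), add_assoc]

end sums

/-- The sum over the other nodes. -/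
noncomputable def So {m : ℕ} (i l : Fin m) (c : Fin m → ℂ) (X : Fin m → ℝ) : ℂ :=
  ∑ t ∈ (Finset.univ.erase i).erase l, ((|X t| : ℝ) : ℂ) * c t

/-- The total weight of the other nodes. -/
noncomputable def To {m : ℕ} (i l : Fin m) (X : Fin m → ℝ) : ℝ :=
  ∑ t ∈ (Finset.univ.erase i).erase l, |X t|

theorem SS_update2 {m : ℕ} {i l : Fin m} (h : i ≠ l) (c : Fin m → ℂ) (X : Fin m → ℝ) (a b : ℝ) :
    SS c (update (update X i a) l b) = ((|a| : ℝ) : ℂ) * c i + ((|b| : ℝ) : ℂ) * c l + So i l c X := by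
  unfold SS So
  rw [sum_two h]
  congr 1
  · rw [update_of_ne h, update_self, update_self]
  · refine Finset.sum_congr rfl fun t ht => ?_
    have h1 : t ≠ l := (Finset.mem_erase.1 ht).1
    have h2 : t ≠ i := (Finset.mem_erase.1 (Finset.mem_erase.1 ht).2).1
    rw [update_of_ne h1, update_of_ne h2]

theorem ST_update2 {m : ℕ} {i l : Fin m} (h : i ≠ l) (X : Fin m → ℝ) (a b : ℝ) :
    ST (update (update X i a) l b) = |a| + |b| + To i l X := by
  unfold ST To
  rw [sum_two h]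
  congr 1
  · rw [update_of_ne h, update_self, update_self]
  · refine Finset.sum_congr rfl fun t ht => ?_
    have h1 : t ≠ l := (Finset.mem_erase.1 ht).1
    have h2 : t ≠ i := (Finset.mem_erase.1 (Finset.mem_erase.1 ht).2).1
    rw [update_of_ne h1, update_of_ne h2]

theorem So_congr {m : ℕ} {i l : Fin m} {c c' : Fin m → ℂ} (h : ∀ t, t ≠ i → t ≠ l → c t = c' t)
    (X : Fin m → ℝ) : So i l c X = So i l c' X := by
  unfold So
  refine Finset.sum_congr rfl fun t ht => ?_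
  rw [h t (Finset.mem_erase.1 (Finset.mem_erase.1 ht).2).1 (Finset.mem_erase.1 ht).1]

theorem norm_So_le {m : ℕ} {i l : Fin m} {c : Fin m → ℂ} (hc : ∀ i, ‖c i‖ ≤ 1) (X : Fin m → ℝ) :
    ‖So i l c X‖ ≤ To i l X := by
  unfold So To
  refine (norm_sum_le _ _).trans (Finset.sum_le_sum fun i _ => ?_)
  rw [norm_mul, Complex.norm_real, Real.norm_of_nonneg (abs_nonneg _)]
  exact mul_le_of_le_one_right (abs_nonneg _) (hc i)

theorem coord_le_To {m : ℕ} {i l : Fin m} (X : Fin m → ℝ) {t : Fin m} (h1 : t ≠ i) (h2 : t ≠ l) :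
    |X t| ≤ To i l X :=
  Finset.single_le_sum (f := fun i => |X i|) (fun i _ => abs_nonneg _)
    (Finset.mem_erase.2 ⟨h2, Finset.mem_erase.2 ⟨h1, Finset.mem_univ t⟩⟩)

/-- The integral of a function over `[0,s]` in terms of the two halves. -/
theorem half_split {G : ℝ → ℂ} {s : ℝ} (hs : 0 < s) (hG : ContinuousOn G (Icc 0 s)) :
    ∫ b in (0:ℝ)..s, (G b - 1 / 2 * G ((s + b) / 2) - 1 / 2 * G (b / 2)) = 0 := by
  have c1 : ContinuousOn (fun b => G ((s + b) / 2)) (Icc 0 s) :=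
    hG.comp (by fun_prop) (by
      intro b hb
      exact ⟨by have := hb.1; linarith, by have := hb.2; linarith⟩)
  have c2 : ContinuousOn (fun b => G (b / 2)) (Icc 0 s) :=
    hG.comp (by fun_prop) (by
      intro b hb
      exact ⟨by have := hb.1; linarith, by have := hb.2; linarith⟩)
  have i0 : IntervalIntegrable G volume 0 s :=
    ContinuousOn.intervalIntegrable (by rw [uIcc_of_le hs.le]; exact hG)
  have i1 : IntervalIntegrable (fun b => 1 / 2 * G ((s + b) / 2)) volume 0 s :=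
    ContinuousOn.intervalIntegrable (by
      rw [uIcc_of_le hs.le]; exact continuousOn_const.mul c1)
  have i2 : IntervalIntegrable (fun b => 1 / 2 * G (b / 2)) volume 0 s :=
    ContinuousOn.intervalIntegrable (by
      rw [uIcc_of_le hs.le]; exact continuousOn_const.mul c2)
  have j1 : IntervalIntegrable G volume 0 (s / 2) :=
    ContinuousOn.intervalIntegrable (by
      rw [uIcc_of_le (by linarith)]; exact hG.mono (Icc_subset_Icc le_rfl (by linarith)))
  have j2 : IntervalIntegrable G volume (s / 2) s :=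
    ContinuousOn.intervalIntegrable (by
      rw [uIcc_of_le (by linarith)]; exact hG.mono (Icc_subset_Icc (by linarith) le_rfl))
  rw [intervalIntegral.integral_sub (i0.sub i1) i2, intervalIntegral.integral_sub i0 i1,
    intervalIntegral.integral_const_mul, intervalIntegral.integral_const_mul]
  have e1 : ∫ b in (0:ℝ)..s, G ((s + b) / 2) = 2 * ∫ b in (s / 2)..s, G b := by
    have h := intervalIntegral.integral_comp_mul_add (a := 0) (b := s) (c := (2:ℝ)⁻¹) G
      (by norm_num) (s / 2)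
    have e : (fun b : ℝ => G ((s + b) / 2)) = fun b => G ((2:ℝ)⁻¹ * b + s / 2) := by
      funext b; congr 1; ring
    rw [e, h, inv_inv]
    have e2 : (2:ℝ)⁻¹ * 0 + s / 2 = s / 2 := by ring
    have e3 : (2:ℝ)⁻¹ * s + s / 2 = s := by ring
    rw [e2, e3, Complex.real_smul]
    norm_num
  have e2 : ∫ b in (0:ℝ)..s, G (b / 2) = 2 * ∫ b in (0:ℝ)..(s / 2), G b := by
    have h := intervalIntegral.integral_comp_div (a := 0) (b := s) G (c := (2:ℝ)) (by norm_num)
    rw [h, zero_div, Complex.real_smul]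
    norm_num
  rw [e1, e2, ← intervalIntegral.integral_add_adjacent_intervals j1 j2]
  ring

theorem cont_Ph (j : ℕ) {ξ : ℂ} (hξ : ‖ξ‖ < 1) (a T : ℝ) {S : ℝ → ℂ} {A : Set ℝ}
    (hS : ContinuousOn S A) (hb : ∀ v ∈ A, ‖S v‖ ≤ T) :
    ContinuousOn (fun v => Ph j ξ a (S v) T) A := by
  unfold Ph
  refine continuousOn_const.mul (ContinuousOn.div continuousOn_const ?_ ?_)
  · exact (continuousOn_const.sub (continuousOn_const.mul (hS.div_const _))).pow _
  · intro v hv
    apply pow_ne_zero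
    have h1 := norm_one_sub_ge (ξ := ξ) (u := S v / (T : ℂ)) le_rfl (norm_div_le (hb v hv))
    intro h
    rw [h, norm_zero] at h1
    linarith

theorem norm_two_le {S0 z1 z2 : ℂ} {T0 a b : ℝ} (hS : ‖S0‖ ≤ T0) (ha : 0 ≤ a) (hb : 0 ≤ b)
    (h1 : ‖z1‖ ≤ 1) (h2 : ‖z2‖ ≤ 1) : ‖(a : ℂ) * z1 + (b : ℂ) * z2 + S0‖ ≤ a + b + T0 := by
  refine (norm_add_le _ _).trans (add_le_add ((norm_add_le _ _).trans (add_le_add ?_ ?_)) hS)
  · rw [norm_mul, Complex.norm_real, Real.norm_of_nonneg ha]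
    exact mul_le_of_le_one_right ha h1
  · rw [norm_mul, Complex.norm_real, Real.norm_of_nonneg hb]
    exact mul_le_of_le_one_right hb h2

theorem bm_two (j : ℕ) {ξ : ℂ} (hξ : ‖ξ‖ < 1) {S0 z1 z2 : ℂ} {T0 a : ℝ} (hS : ‖S0‖ ≤ T0)
    (ha : 0 ≤ a) (haT : a ≤ T0) (h1 : ‖z1‖ ≤ 1) (h2 : ‖z2‖ ≤ 1) :
    BM (fun p : ℝ × ℝ => Ph j ξ a (((|p.1| : ℝ) : ℂ) * z1 + ((|p.2| : ℝ) : ℂ) * z2 + S0)
      (|p.1| + |p.2| + T0)) := by
  refine ⟨Measurable.stronglyMeasurable ?_, 1 / (1 - ‖ξ‖) ^ (j + 1), fun p =>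
    norm_Ph_le j hξ ha ?_ (norm_two_le hS (abs_nonneg _) (abs_nonneg _) h1 h2)⟩
  · have m1 : Measurable (fun p : ℝ × ℝ => ((|p.1| : ℝ) : ℂ)) :=
      Complex.measurable_ofReal.comp measurable_fst.abs
    have m2 : Measurable (fun p : ℝ × ℝ => ((|p.2| : ℝ) : ℂ)) :=
      Complex.measurable_ofReal.comp measurable_snd.abs
    exact (measurable_Ph j ξ).comp (measurable_const.prodMk
      ((((m1.mul_const z1).add (m2.mul_const z2)).add_const S0).prodMk
      ((measurable_fst.abs.add measurable_snd.abs).add_const T0)))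
  · have := abs_nonneg p.1
    have := abs_nonneg p.2
    linarith

/-- The midpoint identity for two coordinates. -/
theorem mid2 (j : ℕ) {ξ : ℂ} (hξ : ‖ξ‖ < 1) {S0 z1 z2 m : ℂ} {T0 a : ℝ} (hS : ‖S0‖ ≤ T0)
    (ha : 0 ≤ a) (haT : a ≤ T0) (h1 : ‖z1‖ ≤ 1) (h2 : ‖z2‖ ≤ 1) (hm : 2 * m = z1 + z2) :
    ∫ p : ℝ × ℝ, (Ph j ξ a (((|p.1| : ℝ) : ℂ) * z1 + ((|p.2| : ℝ) : ℂ) * z2 + S0)
        (|p.1| + |p.2| + T0) -
      1 / 2 * Ph j ξ a (((|p.1| : ℝ) : ℂ) * m + ((|p.2| : ℝ) : ℂ) * z2 + S0)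
        (|p.1| + |p.2| + T0) -
      1 / 2 * Ph j ξ a (((|p.1| : ℝ) : ℂ) * z1 + ((|p.2| : ℝ) : ℂ) * m + S0)
        (|p.1| + |p.2| + T0)) ∂(nu.prod nu) = 0 := by
  have hm1 : ‖m‖ ≤ 1 := by
    have h3 : ‖(2:ℂ) * m‖ ≤ 2 := by
      rw [hm]
      refine (norm_add_le _ _).trans ?_
      linarith
    rw [norm_mul, Complex.norm_ofNat] at h3
    linarith
  have b1 := bm_two j hξ hS ha haT h1 h2
  have b2 := bm_two j hξ hS ha haT hm1 h2
  have b3 := bm_two j hξ hS ha haT h1 hm1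
  have hb := (b1.sub (b2.const_mul (1 / 2))).sub (b3.const_mul (1 / 2))
  rw [pol2 (hb.integrable _)]
  have key : ∀ s ∈ Ioi (0:ℝ), Real.exp (-s) • (∫ b in (0:ℝ)..s,
      (Ph j ξ a (((|s - b| : ℝ) : ℂ) * z1 + ((|b| : ℝ) : ℂ) * z2 + S0) (|s - b| + |b| + T0) -
      1 / 2 * Ph j ξ a (((|s - b| : ℝ) : ℂ) * m + ((|b| : ℝ) : ℂ) * z2 + S0)
        (|s - b| + |b| + T0) -
      1 / 2 * Ph j ξ a (((|s - b| : ℝ) : ℂ) * z1 + ((|b| : ℝ) : ℂ) * m + S0)
        (|s - b| + |b| + T0))) = 0 := by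
    intro s hs
    have hs' : 0 < s := hs
    set G : ℝ → ℂ := fun v => Ph j ξ a (((s - v : ℝ) : ℂ) * z1 + (v : ℂ) * z2 + S0) (s + T0)
      with hG
    have hcont : ContinuousOn G (Icc 0 s) := by
      apply cont_Ph j hξ
      · fun_prop
      · intro v hv
        have h3 := norm_two_le (a := s - v) (b := v) hS (by have := hv.2; linarith) hv.1 h1 h2
        have e : s - v + v + T0 = s + T0 := by ring
        rw [e] at h3
        exact h3
    have h4 := half_split hs' hcont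
    have h5 : ∫ b in (0:ℝ)..s,
      (Ph j ξ a (((|s - b| : ℝ) : ℂ) * z1 + ((|b| : ℝ) : ℂ) * z2 + S0) (|s - b| + |b| + T0) -
      1 / 2 * Ph j ξ a (((|s - b| : ℝ) : ℂ) * m + ((|b| : ℝ) : ℂ) * z2 + S0)
        (|s - b| + |b| + T0) -
      1 / 2 * Ph j ξ a (((|s - b| : ℝ) : ℂ) * z1 + ((|b| : ℝ) : ℂ) * m + S0)
        (|s - b| + |b| + T0)) = 0 := by
      rw [← h4]
      refine intervalIntegral.integral_congr fun b hb => ?_
      rw [uIcc_of_le hs'.le] at hb
      have e1 : |s - b| = s - b := abs_of_nonneg (by have := hb.2; linarith)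
      have e2 : |b| = b := abs_of_nonneg hb.1
      have e3 : s - b + b + T0 = s + T0 := by ring
      have e4 : m = (z1 + z2) / 2 := by rw [← hm]; ring
      simp only [hG]
      rw [e1, e2, e3, e4]
      congr 3
      · congr 1
        push_cast
        ring
      · congr 1
        push_cast
        ring
    rw [h5, smul_zero]
  rw [setIntegral_congr_fun measurableSet_Ioi key]
  simp

/-- MIDPOINT IDENTITY: two nodes `z1, z2` may be replaced in turn by their midpoint. -/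
theorem EE_mid {n : ℕ} {c : Fin (n + 1) → ℂ} (hc : ∀ i, ‖c i‖ ≤ 1) (j : ℕ) {ξ : ℂ} (hξ : ‖ξ‖ < 1)
    {i l : Fin (n + 1)} (hil : i ≠ l) (hi : i ≠ 0) (hl : l ≠ 0) {m : ℂ} (hm : 2 * m = c i + c l) :
    EE c j ξ = 1 / 2 * EE (update c i m) j ξ + 1 / 2 * EE (update c l m) j ξ := by
  have hm1 : ‖m‖ ≤ 1 := by
    have h3 : ‖(2:ℂ) * m‖ ≤ 2 := by
      rw [hm]
      refine (norm_add_le _ _).trans ?_
      linarith [hc i, hc l]
    rw [norm_mul, Complex.norm_ofNat] at h3
    linarith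
  have hc1 : ∀ t, ‖update c i m t‖ ≤ 1 := by
    intro t
    rcases eq_or_ne t i with rfl | h
    · rw [update_self]; exact hm1
    · rw [update_of_ne h]; exact hc t
  have hc2 : ∀ t, ‖update c l m t‖ ≤ 1 := by
    intro t
    rcases eq_or_ne t l with rfl | h
    · rw [update_self]; exact hm1
    · rw [update_of_ne h]; exact hc t
  have b0 := bm_Ph hc j hξ
  have b1 := bm_Ph hc1 j hξ
  have b2 := bm_Ph hc2 j hξ
  have hb := (b0.sub (b1.const_mul (1 / 2))).sub (b2.const_mul (1 / 2))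
  have key : ∫ X, (Ph j ξ |X 0| (SS c X) (ST X) - 1 / 2 * Ph j ξ |X 0| (SS (update c i m) X) (ST X)
      - 1 / 2 * Ph j ξ |X 0| (SS (update c l m) X) (ST X)) ∂mu (n + 1) = 0 := by
    rw [resample2 hil hb]
    have h0 : ∀ X : Fin (n + 1) → ℝ, ∫ p : ℝ × ℝ,
        (Ph j ξ |(update (update X i p.1) l p.2) 0| (SS c (update (update X i p.1) l p.2))
          (ST (update (update X i p.1) l p.2))
        - 1 / 2 * Ph j ξ |(update (update X i p.1) l p.2) 0|
          (SS (update c i m) (update (update X i p.1) l p.2))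
          (ST (update (update X i p.1) l p.2))
        - 1 / 2 * Ph j ξ |(update (update X i p.1) l p.2) 0|
          (SS (update c l m) (update (update X i p.1) l p.2))
          (ST (update (update X i p.1) l p.2))) ∂(nu.prod nu) = 0 := by
      intro X
      have e0 : ∀ p : ℝ × ℝ, (update (update X i p.1) l p.2) 0 = X 0 := by
        intro p
        rw [update_of_ne hl.symm, update_of_ne hi.symm]
      have s1 : So i l (update c i m) X = So i l c X :=
        So_congr (fun t h1 _ => by rw [update_of_ne h1]) X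
      have s2 : So i l (update c l m) X = So i l c X :=
        So_congr (fun t _ h1 => by rw [update_of_ne h1]) X
      simp only [e0, SS_update2 hil, ST_update2 hil, s1, s2, update_self, update_of_ne hil.symm,
        update_of_ne hil]
      exact mid2 j hξ (norm_So_le hc X) (abs_nonneg _) (coord_le_To X hi.symm hl.symm) (hc i) (hc l)
        hm
    simp only [h0, integral_zero]
  have i0 := b0.integrable (mu (n + 1))
  have i1 := (b1.const_mul (1 / 2)).integrable (mu (n + 1))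
  have i2 := (b2.const_mul (1 / 2)).integrable (mu (n + 1))
  have i01 := (b0.sub (b1.const_mul (1 / 2))).integrable (mu (n + 1))
  rw [integral_sub i01 i2, integral_sub i0 i1, integral_const_mul, integral_const_mul] at key
  unfold EE
  linear_combination key

end Pool.Agent.HKone
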