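import Pool.Agent.HHalf.MSplit

set_option autoImplicit false

namespace Pool.Agent.HKone

open MeasureTheory Set Filter Topology Pool.Agent.HHalf

variable {E : Type*} [NormedAddCommGroup E] [NormedSpace ℝ E]

theorem nu_prod : (nu.prod nu) = ((volume : Measure (ℝ × ℝ)).restrict (Ioi 0 ×ˢ Ioi 0)).withDensity
    (fun p => ENNReal.ofReal (Real.exp (-p.1)) * ENNReal.ofReal (Real.exp (-p.2))) := by
  unfold nu
  rw [prod_withDensity nu_meas nu_meas, Measure.prod_restrict]
  rfl

theorem integral_nu_prod (f : ℝ × ℝ → E) : ∫ p, f p ∂(nu.prod nu) =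
    ∫ p in (Ioi (0:ℝ) ×ˢ Ioi (0:ℝ)), Real.exp (-(p.1 + p.2)) • f p := by
  rw [nu_prod, integral_withDensity_eq_integral_toReal_smul]
  · refine integral_congr_ae (Eventually.of_forall fun p => ?_)
    show (ENNReal.ofReal (Real.exp (-p.1)) * ENNReal.ofReal (Real.exp (-p.2))).toReal • f p = _
    rw [ENNReal.toReal_mul, ENNReal.toReal_ofReal (Real.exp_pos _).le,
      ENNReal.toReal_ofReal (Real.exp_pos _).le, ← Real.exp_add]
    congr 2
    ring
  · exact (nu_meas.comp measurable_fst).mul (nu_meas.comp measurable_snd)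
  · exact Eventually.of_forall fun p => ENNReal.mul_lt_top ENNReal.ofReal_lt_top
      ENNReal.ofReal_lt_top

theorem integrable_nu_prod (f : ℝ × ℝ → E) : Integrable f (nu.prod nu) ↔
    IntegrableOn (fun p : ℝ × ℝ => Real.exp (-(p.1 + p.2)) • f p) (Ioi (0:ℝ) ×ˢ Ioi (0:ℝ)) := by
  rw [nu_prod, integrable_withDensity_iff_integrable_smul']
  · unfold IntegrableOn
    apply integrable_congr
    refine Eventually.of_forall fun p => ?_
    show (ENNReal.ofReal (Real.exp (-p.1)) * ENNReal.ofReal (Real.exp (-p.2))).toReal • f p = _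
    rw [ENNReal.toReal_mul, ENNReal.toReal_ofReal (Real.exp_pos _).le,
      ENNReal.toReal_ofReal (Real.exp_pos _).le, ← Real.exp_add]
    congr 2
    ring
  · exact (nu_meas.comp measurable_fst).mul (nu_meas.comp measurable_snd)
  · exact Eventually.of_forall fun p => ENNReal.mul_lt_top ENNReal.ofReal_lt_top
      ENNReal.ofReal_lt_top

/-- The triangle region. -/
def tri : Set (ℝ × ℝ) := {p | 0 < p.2 ∧ p.2 < p.1}

theorem meas_tri : MeasurableSet tri := by
  unfold tri
  exact (measurableSet_lt measurable_const measurable_snd).inter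
    (measurableSet_lt measurable_snd measurable_fst)

theorem shear_indicator (g : ℝ × ℝ → E) (p : ℝ × ℝ) :
    (Ioi (0:ℝ) ×ˢ Ioi (0:ℝ)).indicator g (p.1 - p.2, p.2) =
      tri.indicator (fun q => g (q.1 - q.2, q.2)) p := by
  by_cases h : p ∈ tri
  · rw [indicator_of_mem h, indicator_of_mem]
    exact ⟨by have := h.2; simp only [mem_Ioi]; linarith, h.1⟩
  · rw [indicator_of_notMem h, indicator_of_notMem]
    intro h2
    apply h
    have h3 := h2.1
    have h4 := h2.2
    simp only [mem_Ioi] at h3 h4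
    exact ⟨h4, by linarith⟩

theorem shear_integrable {f : ℝ × ℝ → E} (hf : Integrable f (nu.prod nu)) :
    Integrable (tri.indicator (fun q : ℝ × ℝ => Real.exp (-q.1) • f (q.1 - q.2, q.2)))
      (volume.prod volume) := by
  have h1 := (integrable_nu_prod f).1 hf
  have h2 : Integrable ((Ioi (0:ℝ) ×ˢ Ioi (0:ℝ)).indicator
      (fun p : ℝ × ℝ => Real.exp (-(p.1 + p.2)) • f p)) (volume.prod volume) := by
    rw [integrable_indicator_iff (measurableSet_Ioi.prod measurableSet_Ioi)]
    exact h1
  have h3 := (measurePreserving_sub_prod (volume : Measure ℝ) (volume : Measure ℝ))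
  have h4 := h3.integrable_comp_of_integrable h2
  refine h4.congr (Eventually.of_forall fun p => ?_)
  show (Ioi (0:ℝ) ×ˢ Ioi (0:ℝ)).indicator (fun p : ℝ × ℝ => Real.exp (-(p.1 + p.2)) • f p)
    (p.1 - p.2, p.2) = _
  rw [shear_indicator]
  simp only [sub_add_cancel]

theorem pol2 {f : ℝ × ℝ → E} (hf : Integrable f (nu.prod nu)) :
    ∫ p, f p ∂(nu.prod nu) =
      ∫ s in Ioi (0:ℝ), Real.exp (-s) • ∫ b in (0:ℝ)..s, f (s - b, b) := by
  have h1 := (integrable_nu_prod f).1 hf
  have h2 : Integrable ((Ioi (0:ℝ) ×ˢ Ioi (0:ℝ)).indicator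
      (fun p : ℝ × ℝ => Real.exp (-(p.1 + p.2)) • f p)) (volume.prod volume) := by
    rw [integrable_indicator_iff (measurableSet_Ioi.prod measurableSet_Ioi)]
    exact h1
  have h3 := (measurePreserving_sub_prod (volume : Measure ℝ) (volume : Measure ℝ))
  have h5 := shear_integrable hf
  have h4 : ∫ p, f p ∂(nu.prod nu) =
      ∫ p, tri.indicator (fun q : ℝ × ℝ => Real.exp (-q.1) • f (q.1 - q.2, q.2)) p
        ∂(volume.prod volume) := by
    rw [integral_nu_prod, ← integral_indicator (measurableSet_Ioi.prod measurableSet_Ioi)]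
    have h6 := integral_map h3.measurable.aemeasurable
      (f := (Ioi (0:ℝ) ×ˢ Ioi (0:ℝ)).indicator
      (fun p : ℝ × ℝ => Real.exp (-(p.1 + p.2)) • f p)) (by
        rw [h3.map_eq]; exact h2.aestronglyMeasurable)
    rw [h3.map_eq] at h6
    refine h6.trans (integral_congr_ae (Eventually.of_forall fun p => ?_))
    show (Ioi (0:ℝ) ×ˢ Ioi (0:ℝ)).indicator (fun p : ℝ × ℝ => Real.exp (-(p.1 + p.2)) • f p)
      (p.1 - p.2, p.2) = _
    rw [shear_indicator]
    simp only [sub_add_cancel]
  rw [h4, integral_prod _ h5, ← integral_indicator measurableSet_Ioi]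
  refine integral_congr_ae (Eventually.of_forall fun s => ?_)
  show ∫ b, tri.indicator (fun q : ℝ × ℝ => Real.exp (-q.1) • f (q.1 - q.2, q.2)) (s, b) = _
  by_cases hs : 0 < s
  · rw [indicator_of_mem (show s ∈ Ioi (0:ℝ) from hs), intervalIntegral.integral_of_le hs.le,
      integral_Ioc_eq_integral_Ioo, ← integral_smul, ← integral_indicator measurableSet_Ioo]
    refine integral_congr_ae (Eventually.of_forall fun b => ?_)
    show tri.indicator (fun q : ℝ × ℝ => Real.exp (-q.1) • f (q.1 - q.2, q.2)) (s, b) =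
      (Ioo 0 s).indicator (fun b => Real.exp (-s) • f (s - b, b)) b
    by_cases hb : b ∈ Ioo 0 s
    · rw [indicator_of_mem hb, indicator_of_mem (show (s, b) ∈ tri from ⟨hb.1, hb.2⟩)]
    · rw [indicator_of_notMem hb, indicator_of_notMem]
      intro h
      exact hb ⟨h.1, h.2⟩
  · rw [indicator_of_notMem (show s ∉ Ioi (0:ℝ) from hs)]
    have : (fun b : ℝ => tri.indicator (fun q : ℝ × ℝ => Real.exp (-q.1) • f (q.1 - q.2, q.2))
        (s, b)) = fun _ => 0 := by
      funext b
      apply indicator_of_notMem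
      intro h
      apply hs
      exact h.1.trans h.2
    rw [this, integral_zero]

end Pool.Agent.HKone
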