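import Pool.Agent.HKone.Pol
import Pool.Agent.HStar.Frame

set_option autoImplicit false

namespace Pool.Agent.HKone

open MeasureTheory Set Filter Topology Pool.Agent.HHalf Function

/-- Bounded and strongly measurable. -/
def BM {α E : Type*} [MeasurableSpace α] [NormedAddCommGroup E] (F : α → E) : Prop :=
  StronglyMeasurable F ∧ ∃ C : ℝ, ∀ x, ‖F x‖ ≤ C

section BM

variable {α β E : Type*} [MeasurableSpace α] [MeasurableSpace β] [NormedAddCommGroup E]

theorem BM.integrable {F : α → E} (h : BM F) (m : Measure α) [IsFiniteMeasure m] :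
    Integrable F m := by
  obtain ⟨h1, C, hC⟩ := h
  exact Integrable.of_bound h1.aestronglyMeasurable C (Eventually.of_forall hC)

theorem BM.comp {F : α → E} (h : BM F) {g : β → α} (hg : Measurable g) : BM (fun x => F (g x)) := by
  obtain ⟨h1, C, hC⟩ := h
  exact ⟨h1.comp_measurable hg, C, fun x => hC _⟩

theorem BM.add {F G : α → E} (h : BM F) (h' : BM G) : BM (fun x => F x + G x) := by
  obtain ⟨h1, C, hC⟩ := h
  obtain ⟨h2, D, hD⟩ := h'
  exact ⟨h1.add h2, C + D, fun x => (norm_add_le _ _).trans (add_le_add (hC x) (hD x))⟩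

theorem BM.sub {F G : α → E} (h : BM F) (h' : BM G) : BM (fun x => F x - G x) := by
  obtain ⟨h1, C, hC⟩ := h
  obtain ⟨h2, D, hD⟩ := h'
  exact ⟨h1.sub h2, C + D, fun x => (norm_sub_le _ _).trans (add_le_add (hC x) (hD x))⟩

theorem BM.const_mul {F : α → ℂ} (h : BM F) (c : ℂ) : BM (fun x => c * F x) := by
  obtain ⟨h1, C, hC⟩ := h
  refine ⟨h1.const_mul c, ‖c‖ * C, fun x => ?_⟩
  rw [norm_mul]
  exact mul_le_mul_of_nonneg_left (hC x) (norm_nonneg _)

theorem BM.const_mulr {F : α → ℝ} (h : BM F) (c : ℝ) : BM (fun x => c * F x) := by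
  obtain ⟨h1, C, hC⟩ := h
  refine ⟨h1.const_mul c, ‖c‖ * C, fun x => ?_⟩
  rw [norm_mul]
  exact mul_le_mul_of_nonneg_left (hC x) (norm_nonneg _)

/-- Integration of the second variable. -/
theorem BM.integral_right [NormedSpace ℝ E] {F : α × β → E} (h : BM F) (m : Measure β)
    [IsProbabilityMeasure m] : BM (fun x => ∫ y, F (x, y) ∂m) := by
  obtain ⟨h1, C, hC⟩ := h
  refine ⟨h1.integral_prod_right', C, fun x => ?_⟩
  have h2 := norm_integral_le_of_norm_le_const (μ := m) (f := fun y => F (x, y)) (C := C)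
    (Eventually.of_forall fun y => hC (x, y))
  simpa using h2

end BM

variable {E : Type*} [NormedAddCommGroup E] [NormedSpace ℝ E] {n : ℕ}

theorem update_ins (i : Fin (n + 1)) (a b : ℝ) (y : Fin n → ℝ) :
    update (ins i b y) i a = ins i a y := by
  funext l
  rcases eq_or_ne l i with rfl | hl
  · rw [update_self, ins_same]
  · obtain ⟨j, rfl⟩ := Fin.exists_succAbove_eq hl
    rw [update_of_ne hl, ins_succAbove, ins_succAbove]

theorem integral_ins (i : Fin (n + 1)) (F : (Fin (n + 1) → ℝ) → E) :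
    ∫ X, F X ∂mu (n + 1) = ∫ p : ℝ × (Fin n → ℝ), F (ins i p.1 p.2) ∂(nu.prod (mu n)) := by
  have h := (measurePreserving_piFinSuccAbove (fun _ : Fin (n + 1) => nu) i).symm
  have h2 := h.integral_comp' F
  exact h2.symm

/-- Resampling one coordinate. -/
theorem resample (i : Fin (n + 1)) {F : (Fin (n + 1) → ℝ) → E} (hF : Integrable F (mu (n + 1))) :
    ∫ X, F X ∂mu (n + 1) = ∫ X, (∫ a, F (update X i a) ∂nu) ∂mu (n + 1) := by
  have h1 : Integrable (fun p : ℝ × (Fin n → ℝ) => F (ins i p.1 p.2)) (nu.prod (mu n)) :=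
    (mp_ins i).integrable_comp_of_integrable hF
  rw [integral_ins i F, integral_ins i (fun X => ∫ a, F (update X i a) ∂nu),
    integral_prod_symm _ h1]
  simp only [update_ins]
  rw [integral_fun_snd (fun y : Fin n → ℝ => ∫ a, F (ins i a y) ∂nu)]
  simp

theorem BM.resample {F : (Fin n → ℝ) → E} (h : BM F) (i : Fin n) :
    BM (fun X => ∫ a, F (update X i a) ∂nu) := by
  have h1 : BM (fun p : (Fin n → ℝ) × ℝ => F (update p.1 i p.2)) := h.comp measurable_update'
  exact h1.integral_right nu

/-- Resampling two coordinates. -/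
theorem resample2 {i j : Fin (n + 1)} (_hij : i ≠ j) {F : (Fin (n + 1) → ℝ) → E} (hF : BM F) :
    ∫ X, F X ∂mu (n + 1) =
      ∫ X, (∫ p : ℝ × ℝ, F (update (update X i p.1) j p.2) ∂(nu.prod nu)) ∂mu (n + 1) := by
  rw [HKone.resample j (hF.integrable _), HKone.resample i ((hF.resample j).integrable _)]
  refine integral_congr_ae (Eventually.of_forall fun X => ?_)
  have h1 : BM (fun p : ℝ × ℝ => F (update (update X i p.1) j p.2)) := by
    apply hF.comp
    have h2 : Measurable (fun p : ℝ × ℝ => (update X i p.1, p.2)) :=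
      ((measurable_update X).comp measurable_fst).prodMk measurable_snd
    exact measurable_update'.comp h2
  exact (integral_prod _ (h1.integrable (nu.prod nu))).symm

/-- Resampling three coordinates. -/
theorem resample3 {i j k : Fin (n + 1)} {F : (Fin (n + 1) → ℝ) → E} (hF : BM F) :
    ∫ X, F X ∂mu (n + 1) =
      ∫ X, (∫ a, ∫ b, ∫ c, F (update (update (update X i a) j b) k c) ∂nu ∂nu ∂nu)
        ∂mu (n + 1) := by
  rw [HKone.resample k (hF.integrable _), HKone.resample j ((hF.resample k).integrable _),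
    HKone.resample i (((hF.resample k).resample j).integrable _)]

end Pool.Agent.HKone
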