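import Pool.Agent.HKone.Mid
import Pool.Agent.HKone.Kern

set_option autoImplicit false

namespace Pool.Agent.HKone

open MeasureTheory Set Filter Topology Pool.Agent.HHalf Pool.Agent.HStar Function

/-- `h(Z) - C w_0 h'(Z)` as a function of the weight and the two sums. -/
noncomputable def HH (ξ : ℂ) (C : ℝ) (a : ℝ) (S : ℂ) (T : ℝ) : ℝ :=
  hk ξ (S / (T : ℂ)) - C * ((a / T) * dk ξ (S / (T : ℂ)))

theorem hk_Ph (ξ : ℂ) (a : ℝ) (S : ℂ) (T : ℝ) : hk ξ (S / (T : ℂ)) = 2 * (Ph 0 ξ a S T).re - 1 := by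
  unfold hk Ph
  simp

theorem dk_Ph (ξ : ℂ) (a : ℝ) (S : ℂ) (T : ℝ) :
    (a / T) * dk ξ (S / (T : ℂ)) = 2 * (Ph 1 ξ a S T).re := by
  unfold dk Ph
  rw [pow_one, pow_one, Complex.re_ofReal_mul]
  ring

theorem HH_Ph (ξ : ℂ) (C a : ℝ) (S : ℂ) (T : ℝ) :
    HH ξ C a S T = 2 * (Ph 0 ξ a S T).re - 1 - C * (2 * (Ph 1 ξ a S T).re) := by
  unfold HH
  rw [hk_Ph ξ a, dk_Ph]

section bm

variable {α : Type*} [MeasurableSpace α]

theorem BM.re {F : α → ℂ} (h : BM F) : BM (fun x => (F x).re) := by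
  obtain ⟨h1, C, hC⟩ := h
  refine ⟨(Complex.measurable_re.comp h1.measurable).stronglyMeasurable, C, fun x => ?_⟩
  exact (Complex.abs_re_le_norm _).trans (hC x)

theorem bm_const {E : Type*} [NormedAddCommGroup E] (c : E) : BM (fun _ : α => c) :=
  ⟨stronglyMeasurable_const, ‖c‖, fun _ => le_rfl⟩

theorem bm_Phc {a T : α → ℝ} {S : α → ℂ} (ma : Measurable a) (mS : Measurable S)
    (mT : Measurable T) (h0 : ∀ w, 0 ≤ a w) (h1 : ∀ w, a w ≤ T w) (h2 : ∀ w, ‖S w‖ ≤ T w) (j : ℕ)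
    {ξ : ℂ} (hξ : ‖ξ‖ < 1) : BM (fun w => Ph j ξ (a w) (S w) (T w)) :=
  ⟨((measurable_Ph j ξ).comp (ma.prodMk (mS.prodMk mT))).stronglyMeasurable,
    1 / (1 - ‖ξ‖) ^ (j + 1), fun w => norm_Ph_le j hξ (h0 w) (h1 w) (h2 w)⟩

theorem bm_HH {a T : α → ℝ} {S : α → ℂ} (ma : Measurable a) (mS : Measurable S)
    (mT : Measurable T) (h0 : ∀ w, 0 ≤ a w) (h1 : ∀ w, a w ≤ T w) (h2 : ∀ w, ‖S w‖ ≤ T w) (C : ℝ)
    {ξ : ℂ} (hξ : ‖ξ‖ < 1) : BM (fun w => HH ξ C (a w) (S w) (T w)) := by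
  have b0 := (bm_Phc ma mS mT h0 h1 h2 0 hξ).re
  have b1 := (bm_Phc ma mS mT h0 h1 h2 1 hξ).re
  have := ((b0.const_mulr 2).sub (bm_const (1:ℝ))).sub ((b1.const_mulr 2).const_mulr C)
  simp only [HH_Ph]
  exact this

end bm

theorem hasDerivAt_hk {ξ : ℂ} {S : ℝ → ℂ} {S' : ℝ} {T v : ℝ} (hS : HasDerivAt S (S' : ℂ) v)
    (h : 1 - ξ * (S v / (T : ℂ)) ≠ 0) :
    HasDerivAt (fun v => hk ξ (S v / (T : ℂ))) (S' / T * dk ξ (S v / (T : ℂ))) v := by
  have h1 : HasDerivAt (fun v => 1 - ξ * (S v / (T : ℂ))) (-(ξ * ((S' : ℂ) / (T : ℂ)))) v := by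
    have := ((hS.div_const (T : ℂ)).const_mul ξ).const_sub 1
    exact this
  have h2 : HasDerivAt (fun v => 1 / (1 - ξ * (S v / (T : ℂ))))
      (((S' / T : ℝ) : ℂ) * (ξ / (1 - ξ * (S v / (T : ℂ))) ^ 2)) v := by
    have h3 := h1.fun_inv h
    have e : (fun v => 1 / (1 - ξ * (S v / (T : ℂ)))) = fun v => (1 - ξ * (S v / (T : ℂ)))⁻¹ := by
      funext t; rw [one_div]
    rw [e]
    refine h3.congr_deriv ?_
    push_cast
    ring
  have h4 : HasDerivAt (fun v => (1 / (1 - ξ * (S v / (T : ℂ)))).re)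
      (((S' / T : ℝ) : ℂ) * (ξ / (1 - ξ * (S v / (T : ℂ))) ^ 2)).re v :=
    (Complex.reCLM.hasFDerivAt.comp_hasDerivAt v h2)
  have h5 := (h4.const_mul 2).sub_const 1
  unfold hk dk
  refine h5.congr_deriv ?_
  rw [Complex.re_ofReal_mul]
  ring

theorem norm_lin_le {S1 : ℂ} {T1 x y s v : ℝ} (hS : ‖S1‖ ≤ T1) (hx : |x| ≤ 1) (hy : |y| ≤ 1)
    (h0 : 0 ≤ v) (h1 : v ≤ s) : ‖((s - v : ℝ) : ℂ) * x + (v : ℂ) * y + S1‖ ≤ s + T1 := by
  have h := norm_two_le (S0 := S1) (T0 := T1) (z1 := (x : ℂ)) (z2 := (y : ℂ)) (a := s - v) (b := v)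
    hS (by linarith) h0 (by rw [Complex.norm_real]; exact hx) (by rw [Complex.norm_real]; exact hy)
  have e : s - v + v + T1 = s + T1 := by ring
  rw [e] at h
  exact h

theorem one_dim {ξ : ℂ} (hξ : ‖ξ‖ < 1) {S1 : ℂ} {T1 x y s : ℝ} (hS : ‖S1‖ ≤ T1) (hx : |x| ≤ 1)
    (hy : |y| ≤ 1) (hs : 0 < s) :
    ∫ v in (0:ℝ)..s, HH ξ (y - x) (s - v) (((s - v : ℝ) : ℂ) * x + (v : ℂ) * y + S1) (s + T1) =
      s * hk ξ (((s : ℂ) * x + S1) / ((s + T1 : ℝ) : ℂ)) := by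
  have hT : 0 < s + T1 := by linarith [(norm_nonneg _).trans hS]
  set S : ℝ → ℂ := fun v => ((s - v : ℝ) : ℂ) * x + (v : ℂ) * y + S1 with hSd
  have hSc : Continuous S := by rw [hSd]; fun_prop
  have hSn : ∀ v ∈ Icc 0 s, ‖S v‖ ≤ s + T1 := fun v hv => norm_lin_le hS hx hy hv.1 hv.2
  have hne : ∀ v ∈ Icc 0 s, 1 - ξ * (S v / ((s + T1 : ℝ) : ℂ)) ≠ 0 := fun v hv =>
    one_sub_ne hξ (norm_div_le (hSn v hv))
  have hd : ∀ v ∈ uIcc 0 s, HasDerivAt (fun v => -(s - v) * hk ξ (S v / ((s + T1 : ℝ) : ℂ)))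
      (HH ξ (y - x) (s - v) (S v) (s + T1)) v := by
    intro v hv
    rw [uIcc_of_le hs.le] at hv
    have h1 : HasDerivAt S ((y - x : ℝ) : ℂ) v := by
      have e1 : HasDerivAt (fun v : ℝ => ((v : ℝ) : ℂ)) 1 v := by
        simpa using (hasDerivAt_id v).ofReal_comp
      have e2 : HasDerivAt (fun v : ℝ => (((s - v : ℝ)) : ℂ)) (-1) v := by
        have := ((hasDerivAt_id v).const_sub s).ofReal_comp
        simpa using this
      have e3 := ((e2.mul_const (x : ℂ)).add (e1.mul_const (y : ℂ))).add_const S1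
      refine e3.congr_deriv ?_
      push_cast
      ring
    have h2 := hasDerivAt_hk (T := s + T1) h1 (hne v hv)
    have h3 : HasDerivAt (fun v : ℝ => -(s - v)) 1 v := by
      have e : (fun v : ℝ => -(s - v)) = fun v => v - s := by funext t; ring
      rw [e]
      exact (hasDerivAt_id v).sub_const s
    refine (h3.mul h2).congr_deriv ?_
    unfold HH
    ring
  have hc : ContinuousOn (fun v => HH ξ (y - x) (s - v) (S v) (s + T1)) (uIcc 0 s) := by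
    rw [uIcc_of_le hs.le]
    unfold HH hk dk
    have hq : ContinuousOn (fun v => 1 - ξ * (S v / ((s + T1 : ℝ) : ℂ))) (Icc 0 s) := by
      fun_prop
    refine ContinuousOn.sub ?_ ?_
    · refine ContinuousOn.sub (ContinuousOn.mul continuousOn_const ?_) continuousOn_const
      exact Complex.continuous_re.comp_continuousOn (continuousOn_const.div hq hne)
    · refine ContinuousOn.mul continuousOn_const (ContinuousOn.mul ?_ (ContinuousOn.mul
        continuousOn_const ?_))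
      · fun_prop
      · exact Complex.continuous_re.comp_continuousOn (continuousOn_const.div (hq.pow 2)
          fun v hv => pow_ne_zero 2 (hne v hv))
  rw [intervalIntegral.integral_eq_sub_of_hasDerivAt hd hc.intervalIntegrable]
  simp only [hSd, sub_self, neg_zero, zero_mul, sub_zero, Complex.ofReal_zero, add_zero]
  ring

end Pool.Agent.HKone
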