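import Pool.Agent.HKone.Tri

set_option autoImplicit false

namespace Pool.Agent.HKone

open MeasureTheory Set Filter Topology Pool.Agent.HHalf Pool.Agent.HStar Function

theorem integral_nu_smul {E : Type*} [NormedAddCommGroup E] [NormedSpace ℝ E] (f : ℝ → E) :
    ∫ x, f x ∂nu = ∫ x in Ioi (0:ℝ), Real.exp (-x) • f x := by
  unfold nu
  rw [integral_withDensity_eq_integral_toReal_smul nu_meas
    (Eventually.of_forall fun x => ENNReal.ofReal_lt_top)]
  refine integral_congr_ae (Eventually.of_forall fun x => ?_)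
  show (ENNReal.ofReal (Real.exp (-x))).toReal • f x = _
  rw [ENNReal.toReal_ofReal (Real.exp_pos _).le]

section

variable {ξ S0 : ℂ} {T0 x : ℝ}

/-- Sum of the weighted points. -/
noncomputable def S2 (x y : ℝ) (S0 : ℂ) (q : ℝ × ℝ) : ℂ :=
  ((|q.1| : ℝ) : ℂ) * x + ((|q.2| : ℝ) : ℂ) * y + S0

/-- Sum of the weights. -/
def T2 (T0 : ℝ) (q : ℝ × ℝ) : ℝ := |q.1| + |q.2| + T0

theorem meas_S2 (x y : ℝ) (S0 : ℂ) : Measurable (S2 x y S0) := by
  unfold S2
  have m1 : Measurable (fun p : ℝ × ℝ => ((|p.1| : ℝ) : ℂ)) :=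
    Complex.measurable_ofReal.comp measurable_fst.abs
  have m2 : Measurable (fun p : ℝ × ℝ => ((|p.2| : ℝ) : ℂ)) :=
    Complex.measurable_ofReal.comp measurable_snd.abs
  exact ((m1.mul_const _).add (m2.mul_const _)).add_const S0

theorem meas_T2 (T0 : ℝ) : Measurable (T2 T0) := by
  unfold T2
  exact (measurable_fst.abs.add measurable_snd.abs).add_const T0

theorem norm_S2 {y : ℝ} (hS : ‖S0‖ ≤ T0) (hx : |x| ≤ 1) (hy : |y| ≤ 1) (q : ℝ × ℝ) :
    ‖S2 x y S0 q‖ ≤ T2 T0 q :=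
  norm_two_le hS (abs_nonneg _) (abs_nonneg _) (by rw [Complex.norm_real]; exact hx)
    (by rw [Complex.norm_real]; exact hy)

theorem ibp2 (hξ : ‖ξ‖ < 1) {y : ℝ} (hS : ‖S0‖ ≤ T0) (hx : |x| ≤ 1) (hy : |y| ≤ 1) :
    ∫ q : ℝ × ℝ, HH ξ (y - x) |q.1| (S2 x y S0 q) (T2 T0 q) ∂(nu.prod nu) =
      ∫ s, |s| * hk ξ ((((|s| : ℝ) : ℂ) * x + S0) / ((|s| + T0 : ℝ) : ℂ)) ∂nu := by
  have hT0 : 0 ≤ T0 := (norm_nonneg _).trans hS
  have hb : BM (fun q : ℝ × ℝ => HH ξ (y - x) |q.1| (S2 x y S0 q) (T2 T0 q)) := by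
    apply bm_HH measurable_fst.abs (meas_S2 x y S0) (meas_T2 T0) (fun _ => abs_nonneg _) _
      (norm_S2 hS hx hy) _ hξ
    intro w
    unfold T2
    linarith [abs_nonneg w.2]
  rw [pol2 (hb.integrable _), integral_nu_smul]
  refine setIntegral_congr_fun measurableSet_Ioi fun s hs => ?_
  have hs' : 0 < s := hs
  show Real.exp (-s) • _ = Real.exp (-s) • _
  congr 1
  rw [abs_of_pos hs', ← one_dim hξ hS hx hy hs']
  refine intervalIntegral.integral_congr fun b hb => ?_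
  rw [uIcc_of_le hs'.le] at hb
  have e1 : |s - b| = s - b := abs_of_nonneg (by have := hb.2; linarith)
  have e2 : |b| = b := abs_of_nonneg hb.1
  have e3 : s - b + b + T0 = s + T0 := by ring
  simp only [S2, T2]
  rw [e1, e2, e3]

theorem swap_a {g : ℝ × ℝ × ℝ → ℝ} (hg : BM g) :
    ∫ w, g w ∂(nu.prod (nu.prod nu)) = ∫ v, (∫ q : ℝ × ℝ, g (q.1, q.2, v) ∂(nu.prod nu)) ∂nu := by
  have h1 : ∀ v, BM (fun q : ℝ × ℝ => g (q.1, q.2, v)) := fun v =>
    hg.comp (measurable_fst.prodMk (measurable_snd.prodMk measurable_const))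
  have h2 : ∀ a, BM (fun q : ℝ × ℝ => g (a, q)) := fun a =>
    hg.comp (measurable_const.prodMk measurable_id)
  rw [integral_prod _ (hg.integrable _)]
  have h3 : ∀ a, ∫ q, g (a, q) ∂(nu.prod nu) = ∫ v, (∫ u, g (a, u, v) ∂nu) ∂nu := by
    intro a
    exact integral_prod_symm _ ((h2 a).integrable _)
  simp only [h3]
  have h4 : BM (fun q : ℝ × ℝ => ∫ u, g (q.1, u, q.2) ∂nu) := by
    have : BM (fun r : (ℝ × ℝ) × ℝ => g (r.1.1, r.2, r.1.2)) :=
      hg.comp ((measurable_fst.comp measurable_fst).prodMk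
        (measurable_snd.prodMk (measurable_snd.comp measurable_fst)))
    exact this.integral_right nu
  have h5 := integral_integral_swap (f := fun a v => ∫ u, g (a, u, v) ∂nu) (μ := nu) (ν := nu)
    (h4.integrable _)
  rw [h5]
  refine integral_congr_ae (Eventually.of_forall fun v => ?_)
  exact (integral_prod _ ((h1 v).integrable _)).symm

theorem swap_b {g : ℝ × ℝ × ℝ → ℝ} (hg : BM g) :
    ∫ w, g w ∂(nu.prod (nu.prod nu)) = ∫ u, (∫ q : ℝ × ℝ, g (q.1, u, q.2) ∂(nu.prod nu)) ∂nu := by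
  have h1 : ∀ u, BM (fun q : ℝ × ℝ => g (q.1, u, q.2)) := fun u =>
    hg.comp (measurable_fst.prodMk (measurable_const.prodMk measurable_snd))
  have h2 : ∀ a, BM (fun q : ℝ × ℝ => g (a, q)) := fun a =>
    hg.comp (measurable_const.prodMk measurable_id)
  rw [integral_prod _ (hg.integrable _)]
  have h3 : ∀ a, ∫ q, g (a, q) ∂(nu.prod nu) = ∫ u, (∫ v, g (a, u, v) ∂nu) ∂nu := by
    intro a
    exact integral_prod _ ((h2 a).integrable _)
  simp only [h3]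
  have h4 : BM (fun q : ℝ × ℝ => ∫ v, g (q.1, q.2, v) ∂nu) := by
    have : BM (fun r : (ℝ × ℝ) × ℝ => g (r.1.1, r.1.2, r.2)) :=
      hg.comp ((measurable_fst.comp measurable_fst).prodMk
        ((measurable_snd.comp measurable_fst).prodMk measurable_snd))
    exact this.integral_right nu
  have h5 := integral_integral_swap (f := fun a u => ∫ v, g (a, u, v) ∂nu) (μ := nu) (ν := nu)
    (h4.integrable _)
  rw [h5]
  refine integral_congr_ae (Eventually.of_forall fun v => ?_)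
  exact (integral_prod _ ((h1 v).integrable _)).symm

/-- `x, aL, aR` with weights. -/
noncomputable def g3 (ξ S0 : ℂ) (T0 x aL aR C : ℝ) (w : ℝ × ℝ × ℝ) : ℝ :=
  HH ξ C |w.1| (((|w.1| : ℝ) : ℂ) * x + ((|w.2.1| : ℝ) : ℂ) * aL + ((|w.2.2| : ℝ) : ℂ) * aR + S0)
    (|w.1| + |w.2.1| + |w.2.2| + T0)

theorem bm_g3 (hξ : ‖ξ‖ < 1) {aL aR : ℝ} (C : ℝ) (hS : ‖S0‖ ≤ T0) (hx : |x| ≤ 1) (hL : |aL| ≤ 1)
    (hR : |aR| ≤ 1) : BM (g3 ξ S0 T0 x aL aR C) := by
  have hT0 : 0 ≤ T0 := (norm_nonneg _).trans hS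
  have m1 : Measurable (fun w : ℝ × ℝ × ℝ => |w.1|) := measurable_fst.abs
  have m2 : Measurable (fun w : ℝ × ℝ × ℝ => |w.2.1|) := measurable_snd.fst.abs
  have m3 : Measurable (fun w : ℝ × ℝ × ℝ => |w.2.2|) := measurable_snd.snd.abs
  have c1 := Complex.measurable_ofReal.comp m1
  have c2 := Complex.measurable_ofReal.comp m2
  have c3 := Complex.measurable_ofReal.comp m3
  refine bm_HH m1 ((((c1.mul_const _).add (c2.mul_const _)).add (c3.mul_const _)).add_const S0)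
    (((m1.add m2).add m3).add_const T0) (fun _ => abs_nonneg _) ?_ ?_ C hξ
  · intro w
    show |w.1| ≤ |w.1| + |w.2.1| + |w.2.2| + T0
    linarith [abs_nonneg w.2.1, abs_nonneg w.2.2]
  · intro w
    refine (norm_add_le _ _).trans (add_le_add ((norm_add_le _ _).trans (add_le_add
      ((norm_add_le _ _).trans (add_le_add ?_ ?_)) ?_)) hS)
    · show ‖((|w.1| : ℝ) : ℂ) * (x : ℂ)‖ ≤ _
      rw [norm_mul, Complex.norm_real, Complex.norm_real, Real.norm_of_nonneg (abs_nonneg _)]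
      exact mul_le_of_le_one_right (abs_nonneg _) hx
    · show ‖((|w.2.1| : ℝ) : ℂ) * (aL : ℂ)‖ ≤ _
      rw [norm_mul, Complex.norm_real, Complex.norm_real, Real.norm_of_nonneg (abs_nonneg _)]
      exact mul_le_of_le_one_right (abs_nonneg _) hL
    · show ‖((|w.2.2| : ℝ) : ℂ) * (aR : ℂ)‖ ≤ _
      rw [norm_mul, Complex.norm_real, Complex.norm_real, Real.norm_of_nonneg (abs_nonneg _)]
      exact mul_le_of_le_one_right (abs_nonneg _) hR

/-- The two-variable function. -/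
noncomputable def f2 (ξ S0 : ℂ) (T0 x y : ℝ) (q : ℝ × ℝ) : ℝ :=
  |q.1| * hk ξ (S2 x y S0 q / ((T2 T0 q : ℝ) : ℂ))

theorem int_f2 (hξ : ‖ξ‖ < 1) {y : ℝ} (hS : ‖S0‖ ≤ T0) (hx : |x| ≤ 1) (hy : |y| ≤ 1) :
    Integrable (f2 ξ S0 T0 x y) (nu.prod nu) := by
  have hT0 : 0 ≤ T0 := (norm_nonneg _).trans hS
  have hb : BM (fun q : ℝ × ℝ => HH ξ 0 |q.1| (S2 x y S0 q) (T2 T0 q)) := by
    apply bm_HH measurable_fst.abs (meas_S2 x y S0) (meas_T2 T0) (fun _ => abs_nonneg _) _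
      (norm_S2 hS hx hy) _ hξ
    intro w
    unfold T2
    linarith [abs_nonneg w.2]
  obtain ⟨h1, K, hK⟩ := hb
  have h2 : Integrable (fun q : ℝ × ℝ => |q.1| * K) (nu.prod nu) :=
    ((integrable_nu_id.abs.comp_fst nu)).mul_const K
  refine h2.mono' ?_ (Eventually.of_forall fun q => ?_)
  · have h3 : Measurable (fun q : ℝ × ℝ => HH ξ 0 |q.1| (S2 x y S0 q) (T2 T0 q)) := h1.measurable
    have h4 : f2 ξ S0 T0 x y = fun q => |q.1| * HH ξ 0 |q.1| (S2 x y S0 q) (T2 T0 q) := by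
      funext q
      unfold f2 HH
      rw [zero_mul, sub_zero]
    rw [h4]
    exact (measurable_fst.abs.mul h3).aestronglyMeasurable
  · have h4 : f2 ξ S0 T0 x y q = |q.1| * HH ξ 0 |q.1| (S2 x y S0 q) (T2 T0 q) := by
      unfold f2 HH
      rw [zero_mul, sub_zero]
    rw [h4, norm_mul, Real.norm_of_nonneg (abs_nonneg _)]
    exact mul_le_mul_of_nonneg_left (hK q) (abs_nonneg _)

theorem E_left (hξ : ‖ξ‖ < 1) {aL aR : ℝ} (hS : ‖S0‖ ≤ T0) (hx : |x| ≤ 1) (hL : |aL| ≤ 1)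
    (hR : |aR| ≤ 1) : ∫ w, g3 ξ S0 T0 x aL aR (aL - x) w ∂(nu.prod (nu.prod nu)) =
      ∫ q, f2 ξ S0 T0 x aR q ∂(nu.prod nu) := by
  rw [swap_a (bm_g3 hξ _ hS hx hL hR), integral_prod_symm _ (int_f2 hξ hS hx hR)]
  refine integral_congr_ae (Eventually.of_forall fun v => ?_)
  show ∫ q : ℝ × ℝ, g3 ξ S0 T0 x aL aR (aL - x) (q.1, q.2, v) ∂(nu.prod nu) =
    ∫ s, f2 ξ S0 T0 x aR (s, v) ∂nu
  have h1 : ‖((|v| : ℝ) : ℂ) * aR + S0‖ ≤ |v| + T0 := by
    refine (norm_add_le _ _).trans (add_le_add ?_ hS)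
    rw [norm_mul, Complex.norm_real, Complex.norm_real, Real.norm_of_nonneg (abs_nonneg _)]
    exact mul_le_of_le_one_right (abs_nonneg _) hR
  have h2 := ibp2 (x := x) hξ (y := aL) h1 hx hL
  have e1 : (fun q : ℝ × ℝ => g3 ξ S0 T0 x aL aR (aL - x) (q.1, q.2, v)) =
      fun q : ℝ × ℝ => HH ξ (aL - x) |q.1| (S2 x aL (((|v| : ℝ) : ℂ) * aR + S0) q)
        (T2 (|v| + T0) q) := by
    funext q
    unfold g3 S2 T2
    congr 1 <;> ring
  have e2 : (fun s : ℝ => f2 ξ S0 T0 x aR (s, v)) =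
      fun s : ℝ => |s| * hk ξ ((((|s| : ℝ) : ℂ) * x + (((|v| : ℝ) : ℂ) * aR + S0)) /
        ((|s| + (|v| + T0) : ℝ) : ℂ)) := by
    funext s
    unfold f2 S2 T2
    simp only [add_assoc]
  rw [e1, e2]
  exact h2

theorem E_right (hξ : ‖ξ‖ < 1) {aL aR : ℝ} (hS : ‖S0‖ ≤ T0) (hx : |x| ≤ 1) (hL : |aL| ≤ 1)
    (hR : |aR| ≤ 1) : ∫ w, g3 ξ S0 T0 x aL aR (aR - x) w ∂(nu.prod (nu.prod nu)) =
      ∫ q, f2 ξ S0 T0 x aL q ∂(nu.prod nu) := by
  rw [swap_b (bm_g3 hξ _ hS hx hL hR), integral_prod_symm _ (int_f2 hξ hS hx hL)]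
  refine integral_congr_ae (Eventually.of_forall fun v => ?_)
  show ∫ q : ℝ × ℝ, g3 ξ S0 T0 x aL aR (aR - x) (q.1, v, q.2) ∂(nu.prod nu) =
    ∫ s, f2 ξ S0 T0 x aL (s, v) ∂nu
  have h1 : ‖((|v| : ℝ) : ℂ) * aL + S0‖ ≤ |v| + T0 := by
    refine (norm_add_le _ _).trans (add_le_add ?_ hS)
    rw [norm_mul, Complex.norm_real, Complex.norm_real, Real.norm_of_nonneg (abs_nonneg _)]
    exact mul_le_of_le_one_right (abs_nonneg _) hL
  have h2 := ibp2 (x := x) hξ (y := aR) h1 hx hR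
  have e1 : (fun q : ℝ × ℝ => g3 ξ S0 T0 x aL aR (aR - x) (q.1, v, q.2)) =
      fun q : ℝ × ℝ => HH ξ (aR - x) |q.1| (S2 x aR (((|v| : ℝ) : ℂ) * aL + S0) q)
        (T2 (|v| + T0) q) := by
    funext q
    unfold g3 S2 T2
    congr 1 <;> ring
  have e2 : (fun s : ℝ => f2 ξ S0 T0 x aL (s, v)) =
      fun s : ℝ => |s| * hk ξ ((((|s| : ℝ) : ℂ) * x + (((|v| : ℝ) : ℂ) * aL + S0)) /
        ((|s| + (|v| + T0) : ℝ) : ℂ)) := by
    funext s
    unfold f2 S2 T2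
    simp only [add_assoc]
  rw [e1, e2]
  exact h2

/-- The combination. -/
theorem E_comb (hξ : ‖ξ‖ < 1) {aL aR : ℝ} (C : ℝ) (hS : ‖S0‖ ≤ T0) (hx : |x| ≤ 1) (hL : |aL| ≤ 1)
    (hR : |aR| ≤ 1) : (aR - aL) * ∫ w, g3 ξ S0 T0 x aL aR C w ∂(nu.prod (nu.prod nu)) =
      ∫ q, ((aR - x - C) * f2 ξ S0 T0 x aR q + (x - aL + C) * f2 ξ S0 T0 x aL q)
        ∂(nu.prod nu) := by
  rw [integral_add ((int_f2 hξ hS hx hR).const_mul _) ((int_f2 hξ hS hx hL).const_mul _),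
    integral_const_mul, integral_const_mul, ← E_left hξ hS hx hL hR, ← E_right hξ hS hx hL hR,
    ← integral_const_mul, ← integral_const_mul, ← integral_const_mul, ← integral_add]
  · refine integral_congr_ae (Eventually.of_forall fun w => ?_)
    show (aR - aL) * g3 ξ S0 T0 x aL aR C w = (aR - x - C) * g3 ξ S0 T0 x aL aR (aL - x) w +
      (x - aL + C) * g3 ξ S0 T0 x aL aR (aR - x) w
    unfold g3 HH
    ring
  · exact ((bm_g3 hξ _ hS hx hL hR).integrable _).const_mul _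
  · exact ((bm_g3 hξ _ hS hx hL hR).integrable _).const_mul _

/-- The average over `[x, y]`. -/
noncomputable def JJ (ξ S0 : ℂ) (T0 x y s : ℝ) : ℝ :=
  ∫ v in (0:ℝ)..1, (1 - v) * hk ξ (zp s T0 S0 (x + v * (y - x)))

theorem abs_seg_le {y v : ℝ} (hx : |x| ≤ 1) (hy : |y| ≤ 1) (h0 : 0 ≤ v) (h1 : v ≤ 1) :
    |x + v * (y - x)| ≤ 1 := by
  rw [abs_le] at *
  constructor <;> nlinarith

theorem cont_hkzp (hξ : ‖ξ‖ < 1) {y s : ℝ} (hs : 0 < s) (hS : ‖S0‖ ≤ T0) (hx : |x| ≤ 1)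
    (hy : |y| ≤ 1) : ContinuousOn (fun v => hk ξ (zp s T0 S0 (x + v * (y - x)))) (Icc 0 1) := by
  have hne : ∀ v ∈ Icc (0:ℝ) 1, 1 - ξ * zp s T0 S0 (x + v * (y - x)) ≠ 0 := fun v hv =>
    one_sub_ne hξ (norm_zp_le hs hS (abs_seg_le hx hy hv.1 hv.2))
  unfold hk
  refine ContinuousOn.sub (ContinuousOn.mul continuousOn_const ?_) continuousOn_const
  refine Complex.continuous_re.comp_continuousOn (continuousOn_const.div ?_ hne)
  unfold zp
  fun_prop

theorem scale_f2 (hξ : ‖ξ‖ < 1) {y s : ℝ} (hs : 0 < s) (hS : ‖S0‖ ≤ T0) (hx : |x| ≤ 1)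
    (hy : |y| ≤ 1) : ∫ b in (0:ℝ)..s, f2 ξ S0 T0 x y (s - b, b) = s ^ 2 * JJ ξ S0 T0 x y s := by
  have h1 := intervalIntegral.integral_comp_mul_left (a := 0) (b := 1) (c := s)
    (fun b => f2 ξ S0 T0 x y (s - b, b)) hs.ne'
  rw [mul_zero, mul_one, smul_eq_mul] at h1
  have h2 : ∫ b in (0:ℝ)..s, f2 ξ S0 T0 x y (s - b, b) =
      s * ∫ v in (0:ℝ)..1, f2 ξ S0 T0 x y (s - s * v, s * v) := by
    rw [h1, ← mul_assoc, mul_inv_cancel₀ hs.ne', one_mul]
  rw [h2, pow_two, mul_assoc]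
  congr 1
  unfold JJ
  rw [← intervalIntegral.integral_const_mul]
  refine intervalIntegral.integral_congr fun v hv => ?_
  rw [uIcc_of_le zero_le_one] at hv
  have e0 : s - s * v = s * (1 - v) := by ring
  have e1 : |s - s * v| = s * (1 - v) := by
    rw [e0]; exact abs_of_nonneg (mul_nonneg hs.le (by linarith [hv.2]))
  have e2 : |s * v| = s * v := abs_of_nonneg (mul_nonneg hs.le hv.1)
  simp only [f2, S2, T2]
  rw [e1, e2, mul_assoc]
  congr 3
  unfold zp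
  congr 1
  · push_cast
    ring
  · push_cast
    ring

/-- Positivity of the triple integral. -/
theorem tri_pos (hξ : ‖ξ‖ < 1) {aL aR : ℝ} (C : ℝ) (hS : ‖S0‖ ≤ T0) (hx : |x| ≤ 1) (hL : |aL| ≤ 1)
    (hR : |aR| ≤ 1) (hLR : aL < aR)
    (h : ∀ s, 0 < s → 0 ≤ (aR - x - C) * JJ ξ S0 T0 x aR s + (x - aL + C) * JJ ξ S0 T0 x aL s) :
    0 ≤ ∫ w, g3 ξ S0 T0 x aL aR C w ∂(nu.prod (nu.prod nu)) := by
  have h1 := E_comb hξ C hS hx hL hR
  have h2 : 0 ≤ ∫ q, ((aR - x - C) * f2 ξ S0 T0 x aR q + (x - aL + C) * f2 ξ S0 T0 x aL q)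
      ∂(nu.prod nu) := by
    have hint : Integrable (fun q => (aR - x - C) * f2 ξ S0 T0 x aR q +
        (x - aL + C) * f2 ξ S0 T0 x aL q) (nu.prod nu) :=
      ((int_f2 hξ hS hx hR).const_mul _).add ((int_f2 hξ hS hx hL).const_mul _)
    rw [pol2 hint]
    refine setIntegral_nonneg measurableSet_Ioi fun s hs => ?_
    have hs' : 0 < s := hs
    rw [smul_eq_mul]
    refine mul_nonneg (Real.exp_pos _).le ?_
    have hi : ∀ y : ℝ, |y| ≤ 1 → IntervalIntegrable (fun b => f2 ξ S0 T0 x y (s - b, b))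
        volume 0 s := by
      intro y hy
      apply ContinuousOn.intervalIntegrable
      rw [uIcc_of_le hs'.le]
      have hT : 0 < s + T0 := by linarith [(norm_nonneg _).trans hS]
      have hc : ContinuousOn (fun b : ℝ => (s - b) * hk ξ ((((s - b : ℝ) : ℂ) * x + (b : ℂ) * y + S0) /
          ((s + T0 : ℝ) : ℂ))) (Icc 0 s) := by
        unfold hk
        refine ContinuousOn.mul (by fun_prop) (ContinuousOn.sub (ContinuousOn.mul
          continuousOn_const ?_) continuousOn_const)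
        refine Complex.continuous_re.comp_continuousOn (continuousOn_const.div (by fun_prop) ?_)
        intro v hv
        exact one_sub_ne hξ (norm_div_le (norm_lin_le hS hx hy hv.1 hv.2))
      refine hc.congr fun b hb => ?_
      have e1 : |s - b| = s - b := abs_of_nonneg (by have := hb.2; linarith)
      have e2 : |b| = b := abs_of_nonneg hb.1
      have e3 : s - b + b + T0 = s + T0 := by ring
      simp only [f2, S2, T2]
      rw [e1, e2, e3]
    rw [intervalIntegral.integral_add ((hi aR hR).const_mul _) ((hi aL hL).const_mul _),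
      intervalIntegral.integral_const_mul, intervalIntegral.integral_const_mul,
      scale_f2 hξ hs' hS hx hR, scale_f2 hξ hs' hS hx hL]
    have h3 := h s hs'
    have h4 : (aR - x - C) * (s ^ 2 * JJ ξ S0 T0 x aR s) + (x - aL + C) *
        (s ^ 2 * JJ ξ S0 T0 x aL s) = s ^ 2 * ((aR - x - C) * JJ ξ S0 T0 x aR s +
          (x - aL + C) * JJ ξ S0 T0 x aL s) := by ring
    rw [h4]
    positivity
  rw [← h1] at h2
  have h5 : 0 < aR - aL := by linarith
  exact nonneg_of_mul_nonneg_right h2 h5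

end

end Pool.Agent.HKone
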